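import Pool.Agent.MP_08f4e9_nt.Spec

/-! Project RD: the case of long gaps. -/

set_option autoImplicit false

noncomputable section

namespace Pool.Agent.MP_08f4e9_nt.RD

open Finset Filter Pool.Agent.MP_35c637_nt.OS
open Pool.Agent.MP_a43263_nt.R2 hiding sg

open Classical

namespace AlL

theorem pc (l j : ℕ) (h : ∀ i ∈ Icc 1 j, ¬(l + i).Prime) :
    Nat.primeCounting (l + j) = Nat.primeCounting l := by
  induction j with
  | zero => rfl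
  | succ j ih =>
    rw [← ih fun i hi => h i (mem_Icc.2 ⟨(mem_Icc.1 hi).1, (mem_Icc.1 hi).2.trans j.le_succ⟩)]
    show Nat.count Nat.Prime (l + j + 1 + 1) = Nat.count Nat.Prime (l + j + 1)
    have h1 : ¬(l + j + 1).Prime := h (j + 1) (mem_Icc.2 ⟨by omega, le_rfl⟩)
    rw [Nat.count_succ, if_neg h1, add_zero]

theorem size {w H l j p n : ℕ} (hw : 9 ≤ w) (hH : H ≤ w) (h1 : w ^ 10000 < l)
    (h2 : l ≤ 8 * w ^ 10000) (hj : j ≤ H) (hp : 1 ≤ p) (hp' : p ≤ w ^ 107) (e : l + j = p * n) :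
    w ^ 9000 < n ∧ n ≤ w ^ 10001 ∧ p ≤ n := by
  have a1 : w ^ 107 * w ^ 9000 ≤ w ^ 10000 := by
    rw [← pow_add]
    exact Nat.pow_le_pow_right (by omega : 0 < w) (by norm_num : 107 + 9000 ≤ 10000)
  have a2 : w ^ 107 ≤ w ^ 9000 := Nat.pow_le_pow_right (by omega) (by norm_num)
  have a3 : w ≤ w ^ 10000 := Nat.le_self_pow (by norm_num) w
  have a4 : 9 * w ^ 10000 ≤ w ^ 10001 := by
    rw [pow_succ' w 10000]
    exact Nat.mul_le_mul_right _ hw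
  have a5 : n ≤ p * n := Nat.le_mul_of_pos_left n hp
  have a6 : w ^ 9000 < n := by
    by_contra hc
    have a7 : p * n ≤ w ^ 107 * w ^ 9000 := Nat.mul_le_mul hp' (not_lt.1 hc)
    exact absurd (h1.trans_le ((Nat.le_add_right l j).trans (e ▸ a7.trans a1))) (lt_irrefl _)
  refine ⟨a6, ?_, hp'.trans (a2.trans a6.le)⟩
  generalize w ^ 10000 = Y at h2 a3 a4
  generalize w ^ 10001 = Z at a4 ⊢
  omega

/-- one shift -/
theorem shift {H j : ℕ} {C V : ℝ} (hH : 9 ≤ H) (hC : 0 < C) (hj : j ∈ Icc 1 H) (T : Finset ℕ)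
    (hT : T ⊆ TT H) (hg : ∀ l ∈ T, ∀ j ∈ Icc 1 H, ¬(l + j).Prime) (hV : 1 ≤ V)
    (hR : ∀ n : ℕ, 1 ≤ n → (((pri (ww H ^ 90) (ww H ^ 107)).filter fun p =>
      ∃ l : ℕ, l.Prime ∧ YY H < l ∧ l ≤ 8 * YY H ∧ l + j = p * n).card : ℝ) ≤
        C * sg n * sg j * YY H / (n * (H : ℝ) ^ 16)) :
    ((T.filter fun l => (∃ p ∈ pri (ww H ^ 90) (ww H ^ 107), p ∣ l + j) ∧ sg (l + j) ≤ V ∧
      sg j ≤ V).card : ℝ) ≤ C * V ^ 2 * (YY H / (H : ℝ) ^ 16) * WW H := by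
  have hW : 0 ≤ WW H := sum_nonneg fun n _ => by positivity
  by_cases hs : sg j ≤ V
  swap
  · rw [filter_false_of_mem fun l _ h => hs h.2.2, card_empty, Nat.cast_zero]
    positivity
  have hw : H ≤ ww H := (Nat.le_self_pow (by norm_num) H).trans Nat.lt_two_pow_self.le
  obtain ⟨j1, j2⟩ := mem_Icc.1 hj
  have hsub : (T.filter fun l => (∃ p ∈ pri (ww H ^ 90) (ww H ^ 107), p ∣ l + j) ∧
      sg (l + j) ≤ V ∧ sg j ≤ V) ⊆
      (((Ioc (ww H ^ 9000) (ww H ^ 10001)).filter Good).filter fun n => sg n ≤ V).biUnion fun n =>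
        ((pri (ww H ^ 90) (ww H ^ 107)).filter fun p =>
          ∃ l : ℕ, l.Prime ∧ YY H < l ∧ l ≤ 8 * YY H ∧ l + j = p * n).image fun p => p * n - j := by
    intro l hl
    obtain ⟨hl, ⟨p, hp, n, e⟩, h1, -⟩ := mem_filter.1 hl
    obtain ⟨h2, h3, h4⟩ := mem_filter.1 (hT hl)
    obtain ⟨h5, h6⟩ := mem_Ioc.1 h2
    obtain ⟨h7, h8⟩ := mem_filter.1 hp
    obtain ⟨s1, s2, s3⟩ := size (hH.trans hw) hw h5 h6 j2 h8.one_le (mem_Ioc.1 h7).2 e
    refine mem_biUnion.2 ⟨n, mem_filter.2 ⟨mem_filter.2 ⟨mem_Ioc.2 ⟨s1, s2⟩, p, h8, s3, ?_⟩, ?_⟩,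
      mem_image.2 ⟨p, mem_filter.2 ⟨hp, l, h3, h5, h6, e⟩, by rw [← e, Nat.add_sub_cancel]⟩⟩
    · rw [← e, pc l j fun i hi =>
        hg l hl i (mem_Icc.2 ⟨(mem_Icc.1 hi).1, (mem_Icc.1 hi).2.trans j2⟩)]
      exact h4
    · exact (E_mono (Nat.primeFactors_mono (Dvd.intro_left p e.symm) (by omega))).trans h1
  have h1 := (card_le_card hsub).trans (card_biUnion_le.trans (sum_le_sum fun _ _ => card_image_le))
  refine (Nat.cast_le.2 h1).trans ?_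
  rw [Nat.cast_sum, WW, mul_sum]
  refine (sum_le_sum fun n hn => ?_).trans
    (sum_le_sum_of_subset_of_nonneg (filter_subset _ _) fun n _ _ => by positivity)
  obtain ⟨h2, h3⟩ := mem_filter.1 hn
  have h4 : 1 ≤ n := (Nat.zero_le _).trans_lt (mem_Ioc.1 (mem_filter.1 h2).1).1
  refine (hR n h4).trans ?_
  have h5 : sg n * sg j ≤ V ^ 2 := by
    rw [sq]
    exact mul_le_mul h3 hs (E_pos _).le (by linarith)
  have e : C * sg n * sg j * YY H / (n * (H : ℝ) ^ 16) =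
      C * (sg n * sg j) * (YY H / (H : ℝ) ^ 16) * (1 / n) := by ring
  rw [e]
  gcongr

end AlL

open AlL

theorem al : MOMStmt → SG1Stmt → RLStmt → ALStmt := by
  rintro hM ⟨V, hV, hS⟩ ⟨C, hC, hR⟩ c hc
  refine ⟨c / (200000 * C * V ^ 2), by positivity, ?_⟩
  filter_upwards [hM (c / 2) (half_pos hc), hS, hR, eventually_ge_atTop 9] with H h1 h2 h3 hH
    T hT hg hcard
  obtain ⟨Bd, hBd, h1⟩ : ∃ Bd : Finset ℕ, (∀ x ∈ Ioc (YY H) (8 * YY H), x ∉ Bd → H ≤ 50000 *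
      ((Icc 1 H).filter fun j => ∃ p ∈ pri (ww H ^ 90) (ww H ^ 107), p ∣ x + j).card) ∧
      (Bd.card : ℝ) ≤ c / 2 * YY H / (H : ℝ) ^ 16 :=
    ⟨_, fun x hx h => not_lt.1 fun h' => h (mem_filter.2 ⟨hx, h'⟩), h1⟩
  have hJ : ∀ l ∈ T \ Bd, H ≤ 100000 * ((Icc 1 H).filter fun j =>
      (∃ p ∈ pri (ww H ^ 90) (ww H ^ 107), p ∣ l + j) ∧ sg (l + j) ≤ V ∧ sg j ≤ V).card := by
    intro l hl
    obtain ⟨l1, l2⟩ := mem_sdiff.1 hl
    have l3 := (mem_filter.1 (hT l1)).1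
    have a1 := hBd l l3 l2
    have a2 := h2 l (mem_Ioc.1 l3).2
    have a3 := h2 0 (Nat.zero_le _)
    have a4 : ((Icc 1 H).filter fun j => ∃ p ∈ pri (ww H ^ 90) (ww H ^ 107), p ∣ l + j) ⊆
        ((Icc 1 H).filter fun j => (∃ p ∈ pri (ww H ^ 90) (ww H ^ 107), p ∣ l + j) ∧
          sg (l + j) ≤ V ∧ sg j ≤ V) ∪ (((Icc 1 H).filter fun j => V < sg (l + j)) ∪
            (Icc 1 H).filter fun j => V < sg (0 + j)) := by
      intro j hj
      simp only [mem_union, mem_filter, zero_add] at hj ⊢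
      obtain ⟨j1, j2⟩ := hj
      by_cases b1 : V < sg (l + j)
      · exact Or.inr (Or.inl ⟨j1, b1⟩)
      · by_cases b2 : V < sg j
        · exact Or.inr (Or.inr ⟨j1, b2⟩)
        · exact Or.inl ⟨j1, j2, not_lt.1 b1, not_lt.1 b2⟩
    have a5 := (card_le_card a4).trans
      ((card_union_le _ _).trans (Nat.add_le_add_left (card_union_le _ _) _))
    omega
  have d1 := card_nsmul_le_sum _ _ _ hJ
  rw [← mul_sum, smul_eq_mul] at d1
  have d2 : ∑ l ∈ T \ Bd, ((Icc 1 H).filter fun j =>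
      (∃ p ∈ pri (ww H ^ 90) (ww H ^ 107), p ∣ l + j) ∧ sg (l + j) ≤ V ∧ sg j ≤ V).card =
      ∑ j ∈ Icc 1 H, ((T \ Bd).filter fun l =>
        (∃ p ∈ pri (ww H ^ 90) (ww H ^ 107), p ∣ l + j) ∧ sg (l + j) ≤ V ∧ sg j ≤ V).card := by
    simp only [card_filter]
    exact sum_comm
  rw [d2] at d1
  have d3 := sum_le_card_nsmul (Icc 1 H) _ _ fun j hj => shift hH hC hj (T \ Bd)
    (sdiff_subset.trans hT) (fun l hl => hg l (mem_sdiff.1 hl).1) hV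
    fun n hn => h3 n j hn (mem_Icc.1 hj).1 (mem_Icc.1 hj).2
  rw [← Nat.cast_sum, Nat.card_Icc, Nat.add_sub_cancel, nsmul_eq_mul] at d3
  have d4 : (T.card : ℝ) ≤ (T \ Bd).card + Bd.card := by
    exact_mod_cast card_le_card_sdiff_add_card
  have d5 := (Nat.cast_le (α := ℝ)).2 d1
  rw [Nat.cast_mul, Nat.cast_mul, Nat.cast_ofNat] at d5
  have H0 : (0 : ℝ) < H := by exact_mod_cast (by omega : 0 < H)
  have Y0 : (0 : ℝ) < YY H := Nat.cast_pos.2 (pow_pos (a := ww H) (pow_pos two_pos _) 10000)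
  have Z0 : 0 < YY H / (H : ℝ) ^ 16 := by positivity
  rw [mul_div_assoc] at h1 hcard
  generalize (YY H : ℝ) / (H : ℝ) ^ 16 = Z at h1 hcard d3 Z0
  have d6 : c / 2 * Z * H ≤ ((T \ Bd).card : ℝ) * H :=
    mul_le_mul_of_nonneg_right (by linarith) H0.le
  rw [div_le_iff₀ (by positivity)]
  refine le_of_mul_le_mul_right ?_ (mul_pos Z0 H0)
  linarith

end Pool.Agent.MP_08f4e9_nt.RD
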