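import Pool.Agent.MP_08f4e9_nt.Spec

/-! Project RD: the case of short gaps. -/

set_option autoImplicit false

noncomputable section

namespace Pool.Agent.MP_08f4e9_nt.RD

open Finset Filter Pool.Agent.MP_35c637_nt.OS
open Pool.Agent.MP_a43263_nt.R2 hiding sg

open Classical

namespace As

theorem small {c C : ℝ} (hc : 0 < c) (hC : 0 < C) :
    ∀ᶠ H : ℕ in atTop, C * Real.log H ^ 4 ≤ c / 2 * H := by
  have h1 := (Real.isLittleO_pow_log_id_atTop (n := 4)).bound (c := c / 2 / C) (by positivity)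
  filter_upwards [tendsto_natCast_atTop_atTop.eventually h1] with H h
  rw [Real.norm_eq_abs, Real.norm_eq_abs, id, Nat.abs_cast] at h
  have h2 := mul_le_mul_of_nonneg_left ((le_abs_self _).trans h) hC.le
  rwa [← mul_assoc, mul_div_cancel₀ _ hC.ne'] at h2

theorem good {w l r n : ℕ} (hw : 16 ≤ w) (h1 : w ^ 10000 < l) (h2 : l ≤ 8 * w ^ 10000)
    (hl : l.Prime) (hc : (Nat.primeCounting l).Prime) (hr : r.Prime) (hrw : r ≤ w)
    (h : l + 1 = r * n) :
    ¬(l + 1).Prime ∧ w ^ 9000 < n ∧ n ≤ w ^ 10001 ∧ Good n := by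
  have e1 : w ^ 10000 = w * w ^ 9999 := pow_succ' w 9999
  have e2 : w ^ 10001 = w * w ^ 10000 := pow_succ' w 10000
  have e0 : 0 < w := lt_of_lt_of_le (by norm_num) hw
  have e3 : w ^ 9000 ≤ w ^ 9999 := Nat.pow_le_pow_right e0 (by norm_num)
  have e4 : w ≤ w ^ 9000 := Nat.le_self_pow (by norm_num) w
  have e5 : w ≤ w ^ 10000 := Nat.le_self_pow (by norm_num) w
  have e6 : 16 * w ^ 10000 ≤ w * w ^ 10000 := Nat.mul_le_mul_right _ hw
  have e7 : r * n ≤ w * n := Nat.mul_le_mul_right _ hrw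
  have e8 : n ≤ r * n := Nat.le_mul_of_pos_left _ hr.pos
  have e9 : w ^ 9999 < n := Nat.lt_of_mul_lt_mul_left (a := w)
    (e1 ▸ h1.trans ((Nat.lt_succ_self l).trans_le (h.le.trans e7)))
  rw [e2]
  generalize w ^ 9000 = a at *
  generalize w ^ 9999 = b at *
  generalize w ^ 10000 = Y at *
  have hn : ¬(l + 1).Prime := fun hp => by
    rcases hl.eq_two_or_odd with a1 | a1
    · omega
    · rcases hp.eq_two_or_odd with a2 | a2 <;> omega
  refine ⟨hn, by omega, by omega, r, hr, by omega, ?_⟩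
  have a1 : Nat.primeCounting (l + 1) = Nat.primeCounting l := by
    unfold Nat.primeCounting Nat.primeCounting'
    rw [Nat.count_succ _ (l + 1), if_neg hn, add_zero]
  rw [← h, a1]
  exact hc

end As

theorem asm : BSStmt → RSStmt → ASStmt := by
  rintro hB ⟨C, hC, hR⟩ c hc
  filter_upwards [hB (c / 2) (by positivity), hR, As.small hc hC, eventually_ge_atTop 2] with
    H hB hR hS hH T hT hT' hcard
  have hw : 16 ≤ ww H := by
    have a1 : 2 ^ 2 ≤ H ^ 8 := (Nat.pow_le_pow_left hH 2).trans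
      (Nat.pow_le_pow_right (by omega) (by omega))
    exact Nat.pow_le_pow_right (n := 2) (by omega) a1
  have hsub : T ⊆ ((Ioc (YY H) (8 * YY H)).filter fun l => l.Prime ∧
      (∃ h ∈ Icc 1 H, (l + h).Prime) ∧ ∀ r ∈ pri (uu H ^ 100) (ww H), ¬r ∣ l + 1) ∪
      ((Ioc (ww H ^ 9000) (ww H ^ 10001)).filter Good).biUnion fun n => (Icc 2 H).biUnion fun h =>
        ((pri (uu H ^ 100) (ww H)).filter fun p => ∃ l : ℕ, l.Prime ∧ YY H < l ∧ l ≤ 8 * YY H ∧
          l + 1 = p * n ∧ (l + h).Prime).image fun p => p * n - 1 := by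
    intro l hl
    obtain ⟨a1, a2, a3⟩ := Finset.mem_filter.1 (hT hl)
    by_cases hr : ∀ r ∈ pri (uu H ^ 100) (ww H), ¬r ∣ l + 1
    · exact Finset.mem_union_left _ (Finset.mem_filter.2 ⟨a1, a2, hT' l hl, hr⟩)
    refine Finset.mem_union_right _ ?_
    push Not at hr
    obtain ⟨r, hr, n, hn⟩ := hr
    obtain ⟨h, hh, hp⟩ := hT' l hl
    rw [Finset.mem_Ioc] at a1
    rw [Finset.mem_Icc] at hh
    have hr' := Mer.mem_pri.1 hr
    obtain ⟨b1, b2, b3, b4⟩ := As.good hw a1.1 a1.2 a2 a3 (by tauto) (by tauto) hn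
    have h2 : 2 ≤ h := by
      by_contra h3
      rw [show h = 1 by omega] at hp
      exact b1 hp
    refine Finset.mem_biUnion.2 ⟨n, Finset.mem_filter.2 ⟨Finset.mem_Ioc.2 ⟨b2, b3⟩, b4⟩,
      Finset.mem_biUnion.2 ⟨h, Finset.mem_Icc.2 ⟨h2, hh.2⟩, Finset.mem_image.2
        ⟨r, Finset.mem_filter.2 ⟨hr, l, a2, a1.1, a1.2, hn, hp⟩, ?_⟩⟩⟩
    omega
  have hH0 : (0 : ℝ) < H := by exact_mod_cast (by omega : 0 < H)
  have hY : (0 : ℝ) < YY H := by exact_mod_cast (pow_pos (by omega : 0 < ww H) _ : 0 < YY H)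
  have hL : 0 < Real.log H := Real.log_pos (by exact_mod_cast (by omega : 1 < H))
  have h1 := (Finset.card_le_card hsub).trans ((Finset.card_union_le _ _).trans
    (Nat.add_le_add_left (Finset.card_biUnion_le.trans (Finset.sum_le_sum fun n _ =>
      Finset.card_biUnion_le.trans (Finset.sum_le_sum fun h _ => Finset.card_image_le))) _))
  have h2 := (Nat.cast_le (α := ℝ)).2 h1
  rw [Nat.cast_add, Nat.cast_sum] at h2
  have h3 : (T.card : ℝ) ≤ c / 2 * YY H / (H : ℝ) ^ 16 +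
      C * Real.log H ^ 4 * (YY H / (H : ℝ) ^ 17) * WW H := by
    refine h2.trans (add_le_add hB ?_)
    unfold WW
    rw [Finset.mul_sum]
    refine Finset.sum_le_sum fun n hn => ?_
    have a1 := Finset.mem_Ioc.1 (Finset.mem_filter.1 hn).1
    have a2 : 1 ≤ n := Nat.one_le_of_lt a1.1
    have a3 : (0 : ℝ) < n := by exact_mod_cast a2
    rw [Nat.cast_sum]
    refine (Finset.sum_le_sum fun h hh => hR n h a2 a1.2 (Finset.mem_Icc.1 hh).1
      (Finset.mem_Icc.1 hh).2).trans ?_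
    rw [Finset.sum_const, nsmul_eq_mul]
    have a4 : ((Icc 2 H).card : ℝ) ≤ H := by
      rw [Nat.card_Icc]
      exact_mod_cast (by omega : H + 1 - 2 ≤ H)
    refine (mul_le_mul_of_nonneg_right a4 (by positivity)).trans (le_of_eq ?_)
    field_simp
  have e1 : c * YY H / (H : ℝ) ^ 16 = c * H * (YY H / (H : ℝ) ^ 17) := by field_simp
  have e2 : c / 2 * YY H / (H : ℝ) ^ 16 = c / 2 * H * (YY H / (H : ℝ) ^ 17) := by field_simp
  have ha : (0 : ℝ) < YY H / (H : ℝ) ^ 17 := by positivity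
  have hCL : 0 < C * Real.log H ^ 4 := by positivity
  rw [e1] at hcard
  rw [e2] at h3
  have h4 := mul_le_mul_of_nonneg_right hS ha.le
  refine le_of_mul_le_mul_left ?_ (mul_pos hCL ha)
  linarith

end Pool.Agent.MP_08f4e9_nt.RD
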