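import Pool.Agent.MP_08f4e9_nt.Spec

/-! Project RD: few primes before a short gap have a rough successor. -/

set_option autoImplicit false

noncomputable section

namespace Pool.Agent.MP_08f4e9_nt.RD

open Finset Filter Pool.Agent.MP_35c637_nt.OS
open Pool.Agent.MP_a43263_nt.R2 hiding sg

open Classical

namespace Bs

theorem sizes {H : ℕ} (h : 10 ≤ H) : H < uu H ^ 100 ∧ uu H ^ 100 ≤ ww H ∧ H ^ 17 ≤ ww H := by
  have h1 : H < 2 ^ H := Nat.lt_two_pow_self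
  have h2 : H ≤ H ^ 6 := Nat.le_self_pow (by norm_num) H
  have h3 : 100 ≤ H ^ 2 := by nlinarith
  have h4 : H ^ 6 * 100 ≤ H ^ 8 := by
    calc H ^ 6 * 100 ≤ H ^ 6 * H ^ 2 := Nat.mul_le_mul_left _ h3
      _ = H ^ 8 := by ring
  refine ⟨?_, ?_, ?_⟩
  · rw [uu, ← pow_mul]
    exact h1.trans_le (Nat.pow_le_pow_right (by norm_num) (by omega))
  · rw [uu, ← pow_mul]
    exact Nat.pow_le_pow_right (by norm_num) h4
  · calc H ^ 17 ≤ (2 ^ H) ^ 17 := Nat.pow_le_pow_left h1.le _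
      _ = 2 ^ (H * 17) := (pow_mul _ _ _).symm
      _ ≤ ww H := Nat.pow_le_pow_right (by norm_num) (by omega)

theorem nd {p t y : ℕ} (hp : p ∈ pri 6 y) (ht : t.Prime) (h : y < t) : ¬(p : ℤ) ∣ (t : ℤ) := by
  obtain ⟨⟨-, a2⟩, a3⟩ := Mer.mem_pri.1 hp
  rw [Int.natCast_dvd_natCast, Nat.prime_dvd_prime_iff_eq a3 ht]
  omega

theorem nd1 {p a y : ℕ} (hp : p ∈ pri a y) : ¬(p : ℤ) ∣ 1 := fun h =>
  (Mer.mem_pri.1 hp).2.one_lt.ne' (by
    exact_mod_cast Int.eq_one_of_dvd_one (Int.natCast_nonneg p) h)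

/-- One shift. -/
theorem one (hG : GS3Stmt) (hS : SG2Stmt) : ∃ B : ℝ, 0 < B ∧ ∀ᶠ H : ℕ in atTop, ∀ h ∈ Icc 2 H,
    (((Ioc (YY H) (8 * YY H)).filter fun l => l.Prime ∧ (l + h).Prime ∧
      ∀ r ∈ pri (uu H ^ 100) (ww H), ¬r ∣ l + 1).card : ℝ) ≤
        B * Real.log H * YY H / (H : ℝ) ^ 18 + 2 * (ww H : ℝ) ^ 84 := by
  obtain ⟨y0, hg⟩ := hG
  obtain ⟨C, hC, hs⟩ := hS
  obtain ⟨c, hc, hl⟩ := lowE
  refine ⟨407232 * C / c ^ 3, by positivity, ?_⟩
  filter_upwards [hs, eventually_ge_atTop 10, eventually_ge_atTop y0] with H hs h10 hy h hh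
  obtain ⟨h2, hH⟩ := mem_Icc.1 hh
  obtain ⟨s1, s2, -⟩ := sizes h10
  have wY : ww H ≤ YY H := by
    rw [YY]
    exact Nat.le_self_pow (by omega) (ww H)
  have nh : ∀ p ∈ pri (uu H ^ 100) (ww H), ∀ m, 0 < m → m ≤ H → ¬p ∣ m := fun p hp m m0 m1 k => by
    have := Nat.le_of_dvd m0 k
    have := (Mer.mem_pri.1 hp).1.1
    omega
  have k := hg (ww H) (by omega) 1 0 1 h 1 1 (pri 6 (ww H))
    ((pri 6 (ww H)).filter fun p => ¬p ∣ h) (pri (uu H ^ 100) (ww H)) (YY H + 1) (7 * YY H)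
    (((Ioc (YY H) (8 * YY H)).filter fun l => l.Prime ∧ (l + h).Prime ∧
      ∀ r ∈ pri (uu H ^ 100) (ww H), ¬r ∣ l + 1).image fun l : ℕ => (l : ℤ))
    Subset.rfl (filter_subset _ _)
    (fun p hp => mem_filter.2 ⟨by
      obtain ⟨⟨a1, a2⟩, a3⟩ := Mer.mem_pri.1 hp
      exact Mer.mem_pri.2 ⟨⟨by omega, a2⟩, a3⟩, nh p hp h (by omega) hH⟩)
    (fun p hp => nd1 hp)
    (fun p hp => ⟨nd1 (mem_filter.1 hp).1, fun k => (mem_filter.1 hp).2
      (Int.natCast_dvd_natCast.1 (by simpa using k))⟩)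
    (fun p hp => ⟨nd1 hp, by simpa using nd1 hp, fun k => nh p hp (h - 1) (by omega) (by omega) (by
      rw [← Int.natCast_dvd_natCast, ← dvd_neg, Nat.cast_sub (by omega)]
      simpa using k)⟩)
    (fun n hn => by
      obtain ⟨l, hl', rfl⟩ := mem_image.1 hn
      obtain ⟨a0, a3, a4, a5⟩ := mem_filter.1 hl'
      obtain ⟨a1, a2⟩ := mem_Ioc.1 a0
      refine ⟨by omega, by push_cast; omega, fun p hp => ?_, fun p hp => ?_, fun p hp k => ?_⟩
      · simpa using nd hp a3 (by omega)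
      · simpa using nd (mem_filter.1 hp).1 a4 (by omega)
      · exact a5 p hp (Int.natCast_dvd_natCast.1 (by simpa using k)))
  rw [card_image_of_injective _ Nat.cast_injective] at k
  refine k.trans (add_le_add ?_ le_rfl)
  have H0 : (10 : ℝ) ≤ H := by exact_mod_cast h10
  have l2 := Real.log_two_gt_d9
  have l2' := Real.log_two_lt_d9
  have q6 : (1 : ℝ) ≤ (H : ℝ) ^ 6 := one_le_pow₀ (by linarith)
  have lw : c * ((H : ℝ) ^ 8 / 2) ≤ c * Real.log (ww H) := by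
    refine mul_le_mul_of_nonneg_left ?_ hc.le
    rw [ww]
    push_cast
    rw [Real.log_pow]
    push_cast
    have : (0 : ℝ) ≤ (H : ℝ) ^ 8 := by positivity
    nlinarith
  have lu : 1 + Real.log ((uu H ^ 100 : ℕ) : ℝ) ≤ 101 * (H : ℝ) ^ 6 := by
    rw [uu]
    push_cast
    rw [Real.log_pow, Real.log_pow]
    push_cast
    nlinarith
  have l6 : 1 + Real.log ((6 : ℕ) : ℝ) ≤ 6 := by
    have := Real.log_le_sub_one_of_pos (show (0 : ℝ) < (6 : ℕ) by norm_num)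
    push_cast at this ⊢
    linarith
  have sg1 : sg 1 = 1 := by simp [sg, E]
  have p1 := E_pos (pri 6 (ww H))
  have p2 := E_pos ((pri 6 (ww H)).filter fun p => ¬p ∣ h)
  have p3 := E_pos (pri (uu H ^ 100) (ww H))
  have lH : 0 < Real.log H := Real.log_pos (by linarith)
  have e1 : c * ((H : ℝ) ^ 8 / 2) ≤ 6 * E (pri 6 (ww H)) := by
    have := hl 6 (ww H) 1 (by norm_num) (by omega) one_ne_zero
    rw [sg1, one_mul] at this
    exact lw.trans (this.trans (mul_le_mul l6 (E_mono (filter_subset _ _)) (E_pos _).le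
      (by norm_num)))
  have e2 : c * ((H : ℝ) ^ 8 / 2) ≤
      6 * (C * Real.log H * E ((pri 6 (ww H)).filter fun p => ¬p ∣ h)) :=
    lw.trans ((hl 6 (ww H) h (by norm_num) (by omega) (by omega)).trans (mul_le_mul l6
      (mul_le_mul_of_nonneg_right (hs h (by omega)
        (le_trans (by omega) (Nat.le_self_pow (by norm_num) (ww H)))) p2.le)
      (mul_pos (one_pos.trans_le (one_le_sg _)) p2).le (by norm_num)))
  have e3 : c * ((H : ℝ) ^ 8 / 2) ≤ 101 * (H : ℝ) ^ 6 * E (pri (uu H ^ 100) (ww H)) := by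
    have := hl (uu H ^ 100) (ww H) 1 (by omega) s2 one_ne_zero
    rw [sg1, one_mul] at this
    exact lw.trans (this.trans (mul_le_mul lu (E_mono (filter_subset _ _)) (E_pos _).le
      (by positivity)))
  have e4 := mul_le_mul (mul_le_mul e1 e2 (by positivity) (by positivity)) e3 (by positivity)
    (by positivity)
  rw [div_le_div_iff₀ (by positivity) (by positivity)]
  have e5 := mul_le_mul_of_nonneg_left e4
    (show 0 ≤ 112 * (YY H : ℝ) / (c ^ 3 * (H : ℝ) ^ 6) by positivity)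
  refine le_trans (le_of_eq ?_) (e5.trans (le_of_eq ?_))
  · push_cast
    field_simp
    ring
  · field_simp
    ring

end Bs

theorem bs : GS3Stmt → SG2Stmt → BSStmt := by
  intro hG hS ε hε
  obtain ⟨B, hB, hb⟩ := Bs.one hG hS
  have hlog := tendsto_natCast_atTop_atTop.eventually
    (Real.isLittleO_log_id_atTop.bound (show 0 < ε / (2 * B) by positivity))
  filter_upwards [hb, hlog, eventually_ge_atTop 10, eventually_ge_atTop ⌈4 / ε⌉₊] with
    H hb hlog h10 h4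
  obtain ⟨s1, s2, s3⟩ := Bs.sizes h10
  have wY : ww H ≤ YY H := by
    rw [YY]
    exact Nat.le_self_pow (by omega) (ww H)
  have H0 : (10 : ℝ) ≤ H := by exact_mod_cast h10
  have sub : ((Ioc (YY H) (8 * YY H)).filter fun l => l.Prime ∧ (∃ h ∈ Icc 1 H, (l + h).Prime) ∧
      ∀ r ∈ pri (uu H ^ 100) (ww H), ¬r ∣ l + 1) ⊆ (Icc 2 H).biUnion fun h =>
      (Ioc (YY H) (8 * YY H)).filter fun l => l.Prime ∧ (l + h).Prime ∧
        ∀ r ∈ pri (uu H ^ 100) (ww H), ¬r ∣ l + 1 := by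
    intro l hl
    obtain ⟨a0, a1, ⟨h, a2, a3⟩, a4⟩ := mem_filter.1 hl
    obtain ⟨b1, b2⟩ := mem_Icc.1 a2
    have b3 := (mem_Ioc.1 a0).1
    refine mem_biUnion.2 ⟨h, mem_Icc.2 ⟨?_, b2⟩, mem_filter.2 ⟨a0, a1, a3, a4⟩⟩
    have c1 := a1.eq_two_or_odd
    have c2 := a3.eq_two_or_odd
    omega
  have k1 := (Nat.cast_le (α := ℝ)).2 ((card_le_card sub).trans card_biUnion_le)
  rw [Nat.cast_sum] at k1
  have k2 := sum_le_card_nsmul _ _ _ hb
  rw [Nat.card_Icc, nsmul_eq_mul] at k2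
  have lH : 0 < Real.log H := Real.log_pos (by linarith)
  have k3 : ((H + 1 - 2 : ℕ) : ℝ) ≤ H := by exact_mod_cast (by omega : H + 1 - 2 ≤ H)
  refine (k1.trans k2).trans ((mul_le_mul_of_nonneg_right k3 (by positivity)).trans ?_)
  rw [Real.norm_of_nonneg lH.le, id, Real.norm_of_nonneg (by linarith)] at hlog
  have m1 : (H : ℝ) * (B * Real.log H * YY H / (H : ℝ) ^ 18) ≤ ε / 2 * YY H / (H : ℝ) ^ 16 := by
    calc (H : ℝ) * (B * Real.log H * YY H / (H : ℝ) ^ 18)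
        ≤ H * (B * (ε / (2 * B) * H) * YY H / (H : ℝ) ^ 18) := by gcongr
      _ = _ := by field_simp
  have m2 : (H : ℝ) * (2 * (ww H : ℝ) ^ 84) ≤ ε / 2 * YY H / (H : ℝ) ^ 16 := by
    have w1 : (H : ℝ) ^ 17 ≤ ww H := by exact_mod_cast s3
    have w2 : 4 / ε ≤ ww H :=
      (Nat.ceil_le.1 h4).trans (by exact_mod_cast (by omega : H ≤ ww H))
    have w3 : (ww H : ℝ) ^ 86 ≤ YY H := by
      exact_mod_cast Nat.pow_le_pow_right (by omega : 0 < ww H) (by norm_num : 86 ≤ 10000)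
    rw [div_le_iff₀ hε] at w2
    rw [le_div_iff₀ (by positivity)]
    calc (H : ℝ) * (2 * (ww H : ℝ) ^ 84) * (H : ℝ) ^ 16
        = 4 * ((H : ℝ) ^ 17 * (ww H : ℝ) ^ 84 / 2) := by ring
      _ ≤ (ww H * ε) * (ww H * (ww H : ℝ) ^ 84 / 2) := by gcongr
      _ = ε / 2 * (ww H : ℝ) ^ 86 := by ring
      _ ≤ ε / 2 * YY H := by gcongr
  rw [mul_add]
  refine (add_le_add m1 m2).trans (le_of_eq ?_)
  ring

end Pool.Agent.MP_08f4e9_nt.RD
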