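import Pool.Agent.MP_08f4e9_nt.Spec

/-! Project RD: a product of second moments. -/

set_option autoImplicit false

noncomputable section

namespace Pool.Agent.MP_08f4e9_nt.RD

open Finset Filter Pool.Agent.MP_35c637_nt.OS
open Pool.Agent.MP_a43263_nt.R2 hiding sg

open Classical

namespace M1

/-- `F` is a product of bounded functions with prime periods in `P`, `A` the product of means -/
def Ok (P : Finset ℕ) (F : ℤ → ℝ) (A : ℝ) : Prop :=
  (∀ p ∈ P, p.Prime) ∧ ∃ f : ℕ → ℤ → ℝ, (∀ p ∈ P, ∀ n, f p (n + p) = f p n) ∧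
    (∀ p ∈ P, ∀ n, |f p n| ≤ 1) ∧ (∀ x, F x = ∏ p ∈ P, f p x) ∧
      A = ∏ p ∈ P, ((∑ r ∈ range p, f p r) / p)

lemma Ok.ins {P : Finset ℕ} {F : ℤ → ℝ} {A : ℝ} (h : Ok P F A) {p : ℕ} (hp : p.Prime)
    (hn : p ∉ P) (g : ℤ → ℝ) (g1 : ∀ n, g (n + p) = g n) (g2 : ∀ n, |g n| ≤ 1) :
    Ok (insert p P) (fun x => g x * F x) ((∑ r ∈ range p, g r) / p * A) := by
  obtain ⟨h0, f, h1, h2, h3, h4⟩ := h
  have e : ∀ s ∈ P, Function.update f p g s = f s := fun s hs =>
    Function.update_of_ne (fun (k : s = p) => hn (k ▸ hs)) _ _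
  refine ⟨forall_mem_insert _ _ _ |>.2 ⟨hp, h0⟩, Function.update f p g,
    forall_mem_insert _ _ _ |>.2 ⟨by simpa using g1, fun s hs => by rw [e s hs]; exact h1 s hs⟩,
    forall_mem_insert _ _ _ |>.2 ⟨by simpa using g2, fun s hs => by rw [e s hs]; exact h2 s hs⟩,
    fun x => ?_, ?_⟩
  · show g x * F x = _
    rw [prod_insert hn, Function.update_self, h3]
    exact congrArg _ (prod_congr rfl fun s hs => by rw [e s hs])
  · rw [prod_insert hn, Function.update_self, h4]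
    exact congrArg _ (prod_congr rfl fun s hs => by rw [e s hs])

lemma key (y N : ℕ) (R : ℕ → Finset ℕ) (g : ℕ → ℤ → ℝ) (a : ℤ)
    (g1 : ∀ (p : ℕ) (n : ℤ), g p (n + p) = g p n) (g2 : ∀ (p : ℕ) (n : ℤ), |g p n| ≤ 1)
    (hy : 1 ≤ y) (k : ℕ) : (∀ i < k, ∀ p ∈ R i, p.Prime ∧ p ≤ y) →
    (∀ i < k, ∀ j < k, i ≠ j → Disjoint (R i) (R j)) →
    (∀ i < k, ∀ p ∈ R i, ∑ r ∈ range p, g p r = 0) →
    ∀ (P : Finset ℕ) (F : ℤ → ℝ) (A : ℝ), Ok P F A → (∀ i < k, Disjoint P (R i)) →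
    |∑ x ∈ Ico a (a + N), F x * ∏ i ∈ range k, (∑ p ∈ R i, g p x) ^ 2 -
      N * (A * ∏ i ∈ range k, (∑ p ∈ R i, (∑ r ∈ range p, g p r ^ 2) / p))| ≤
      2 * (∏ p ∈ P, (p : ℝ)) * (y : ℝ) ^ (4 * k) := by
  induction k with
  | zero =>
    rintro - - - P F A ⟨h0, f, h1, h2, h3, h4⟩ -
    simpa [h3, h4] using crt P f a N h0 h1 h2
  | succ k ih =>
    intro h1 h2 h3 P F A hO hD
    have ih := ih (fun i hi => h1 i (by omega)) (fun i hi j hj => h2 i (by omega) j (by omega))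
      (fun i hi => h3 i (by omega))
    have y1 : (1 : ℝ) ≤ y := by exact_mod_cast hy
    have Q0 : 0 ≤ ∏ p ∈ P, (p : ℝ) := prod_nonneg fun _ _ => Nat.cast_nonneg _
    have nP : ∀ p ∈ R k, p ∉ P := fun p hp hP => disjoint_left.1 (hD k (by omega)) hP hp
    have nR : ∀ p ∈ R k, ∀ i < k, p ∉ R i := fun p hp i hi =>
      disjoint_left.1 (h2 k (by omega) i (by omega) (by omega)) hp
    have py : ∀ p ∈ R k, (p : ℝ) ≤ y := fun p hp => by exact_mod_cast (h1 k (by omega) p hp).2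
    set S : ℤ → ℝ := fun x => ∏ i ∈ range k, (∑ p ∈ R i, g p x) ^ 2 with hS
    set V : ℝ := ∏ i ∈ range k, (∑ p ∈ R i, (∑ r ∈ range p, g p r ^ 2) / p) with hV
    have one : ∀ p ∈ R k, ∀ q ∈ R k,
        |∑ x ∈ Ico a (a + N), g p x * (g q x * F x) * S x -
          if p = q then N * ((∑ r ∈ range p, g p r ^ 2) / p * A * V) else 0| ≤
          2 * (∏ p ∈ P, (p : ℝ)) * (y : ℝ) ^ (4 * k) * y ^ 2 := by
      intro p hp q hq
      have pp := (h1 k (by omega) p hp).1
      have qp := (h1 k (by omega) q hq).1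
      split_ifs with e
      · subst e
        have t := ih _ _ _ (hO.ins pp (nP p hp) (fun x => g p x ^ 2) (fun n => by rw [g1])
          fun n => by rw [abs_pow]; exact pow_le_one₀ (abs_nonneg _) (g2 p n))
          fun i hi => disjoint_insert_left.2 ⟨nR p hp i hi, hD i (by omega)⟩
        rw [prod_insert (nP p hp)] at t
        have e2 : ∀ x, g p x * (g p x * F x) * S x = g p x ^ 2 * F x * S x := fun x => by ring
        simp only [e2]
        refine t.trans ?_
        have : (p : ℝ) ≤ y ^ 2 := (py p hp).trans (by nlinarith)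
        calc _ = 2 * (∏ p ∈ P, (p : ℝ)) * (y : ℝ) ^ (4 * k) * p := by ring
          _ ≤ _ := by gcongr
      · have n2 : p ∉ insert q P := fun h => (mem_insert.1 h).elim e (nP p hp)
        have t := ih _ _ _ ((hO.ins qp (nP q hq) (g q) (g1 q) (g2 q)).ins pp n2 (g p) (g1 p) (g2 p))
          fun i hi => disjoint_insert_left.2 ⟨nR p hp i hi,
            disjoint_insert_left.2 ⟨nR q hq i hi, hD i (by omega)⟩⟩
        rw [prod_insert n2, prod_insert (nP q hq), h3 k (by omega) p hp, zero_div, zero_mul,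
          zero_mul, mul_zero] at t
        refine t.trans ?_
        have : (p : ℝ) * q ≤ y ^ 2 := by
          rw [sq]; exact mul_le_mul (py p hp) (py q hq) (Nat.cast_nonneg _) (by linarith)
        calc _ = 2 * (∏ p ∈ P, (p : ℝ)) * (y : ℝ) ^ (4 * k) * (p * q) := by ring
          _ ≤ _ := by gcongr
    have cR : ((R k).card : ℝ) ≤ y := by
      have : R k ⊆ Icc 1 y := fun p hp =>
        mem_Icc.2 ⟨(h1 k (by omega) p hp).1.one_le, (h1 k (by omega) p hp).2⟩
      have := card_le_card this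
      rw [Nat.card_Icc] at this
      exact_mod_cast (by omega : (R k).card ≤ y)
    have e1 : ∑ x ∈ Ico a (a + N), F x * ∏ i ∈ range (k + 1), (∑ p ∈ R i, g p x) ^ 2 =
        ∑ p ∈ R k, ∑ q ∈ R k, ∑ x ∈ Ico a (a + N), g p x * (g q x * F x) * S x := by
      simp only [sum_comm (s := R k) (t := Ico a (a + N))]
      refine sum_congr rfl fun x _ => ?_
      rw [prod_range_succ, sq (∑ p ∈ R k, g p x), sum_mul_sum, mul_sum, mul_sum]
      refine sum_congr rfl fun p _ => ?_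
      rw [mul_sum, mul_sum]
      exact sum_congr rfl fun q _ => by simp only [hS]; ring
    have e2 : N * (A * ∏ i ∈ range (k + 1), (∑ p ∈ R i, (∑ r ∈ range p, g p r ^ 2) / p)) =
        ∑ p ∈ R k, ∑ q ∈ R k,
          if p = q then N * ((∑ r ∈ range p, g p r ^ 2) / p * A * V) else 0 := by
      rw [prod_range_succ, ← hV, mul_sum, mul_sum, mul_sum]
      refine sum_congr rfl fun p hp => ?_
      rw [sum_ite_eq, if_pos hp]
      ring
    rw [e1, e2, ← sum_sub_distrib]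
    refine (abs_sum_le_sum_abs _ _).trans ((sum_le_card_nsmul _ _
      (y * (2 * (∏ p ∈ P, (p : ℝ)) * (y : ℝ) ^ (4 * k) * y ^ 2)) fun p hp => ?_).trans ?_)
    · rw [← sum_sub_distrib]
      refine (abs_sum_le_sum_abs _ _).trans ((sum_le_card_nsmul _ _ _ (one p hp)).trans ?_)
      rw [nsmul_eq_mul]
      gcongr
    · rw [nsmul_eq_mul]
      calc _ ≤ y * (y * (2 * (∏ p ∈ P, (p : ℝ)) * (y : ℝ) ^ (4 * k) * y ^ 2)) := by gcongr
        _ = _ := by ring

end M1

theorem m1 : M1Stmt := by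
  intro k y N R g a hy h1 h2 g1 g2 h3
  have t := M1.key y N R g a g1 g2 hy k h1 h2 h3 ∅ (fun _ => 1) 1
    ⟨by simp, g, by simp, by simp, by simp, by simp⟩ fun i _ => disjoint_empty_left _
  simp only [one_mul, prod_empty, mul_one] at t
  linarith [(abs_le.1 t).2]

end Pool.Agent.MP_08f4e9_nt.RD
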