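import Pool.Agent.MP_08f4e9_nt.Spec

/-! Project RD, row M2: few `x` see few primes of every block in the `H` shifts. -/

set_option autoImplicit false

noncomputable section

namespace Pool.Agent.MP_08f4e9_nt.RD

open Finset Filter Pool.Agent.MP_35c637_nt.OS
open Pool.Agent.MP_a43263_nt.R2 hiding sg

open Classical

namespace M2

/-- the centred indicator -/
def gg (H p : ℕ) (x : ℤ) : ℝ :=
  if H < p then (if ∃ j ∈ Icc 1 H, (p : ℤ) ∣ x + (j : ℕ) then 1 else 0) - (H : ℝ) / p else 0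

theorem gg_per (H p : ℕ) (n : ℤ) : gg H p (n + p) = gg H p n := by
  have e : ∀ j : ℕ, (p : ℤ) ∣ n + p + j ↔ (p : ℤ) ∣ n + j := fun j => by
    rw [add_right_comm, dvd_add_self_right]
  simp only [gg, e]

theorem gg_abs (H p : ℕ) (n : ℤ) : |gg H p n| ≤ 1 := by
  unfold gg
  by_cases h : H < p
  · have h0 : (0 : ℝ) ≤ (H : ℝ) / p := by positivity
    have h1 : (H : ℝ) / p ≤ 1 := div_le_one_of_le₀ (by exact_mod_cast h.le) (Nat.cast_nonneg p)
    rw [if_pos h, abs_le]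
    split_ifs <;> constructor <;> linarith
  · rw [if_neg h, abs_zero]
    exact zero_le_one

theorem cnt {H p : ℕ} (h : H < p) : ∑ r ∈ range p,
    (if ∃ j ∈ Icc 1 H, (p : ℤ) ∣ (r : ℕ) + (j : ℕ) then (1 : ℝ) else 0) = H := by
  have e : (range p).filter (fun r : ℕ => ∃ j ∈ Icc 1 H, (p : ℤ) ∣ (r : ℕ) + (j : ℕ)) =
      Ico (p - H) p := by
    ext r
    simp only [mem_filter, mem_range, mem_Ico, mem_Icc]
    constructor
    · rintro ⟨h1, j, ⟨h2, h3⟩, h4⟩
      have h5 : p ∣ r + j := by exact_mod_cast h4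
      have h6 := Nat.le_of_dvd (by omega) h5
      omega
    · rintro ⟨h1, h2⟩
      refine ⟨h2, p - r, ⟨by omega, by omega⟩, ?_⟩
      rw [← Nat.cast_add, Nat.add_sub_cancel' h2.le]
  rw [sum_boole, e, Nat.card_Ico, Nat.sub_sub_self h.le]

theorem gg_sum {H p : ℕ} (h : H < p) : ∑ r ∈ range p, gg H p r = 0 := by
  have h0 : (p : ℝ) ≠ 0 := Nat.cast_ne_zero.2 (by omega)
  simp only [gg, if_pos h]
  rw [sum_sub_distrib, cnt h, sum_const, card_range, nsmul_eq_mul, mul_div_cancel₀ _ h0, sub_self]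

theorem gg_sq {H p : ℕ} (h : H < p) : (∑ r ∈ range p, gg H p r ^ 2) / p ≤ H * (1 / p) := by
  have h0 : (0 : ℝ) < p := Nat.cast_pos.2 (by omega)
  have e : ∀ r : ℕ, gg H p r ^ 2 = (1 - 2 * ((H : ℝ) / p)) *
      (if ∃ j ∈ Icc 1 H, (p : ℤ) ∣ (r : ℕ) + (j : ℕ) then (1 : ℝ) else 0) + ((H : ℝ) / p) ^ 2 := by
    intro r
    rw [gg, if_pos h]
    split_ifs <;> ring
  simp only [e]
  rw [sum_add_distrib, ← mul_sum, cnt h, sum_const, card_range, nsmul_eq_mul, mul_one_div]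
  refine div_le_div_of_nonneg_right ?_ h0.le
  have h1 : (p : ℝ) * ((H : ℝ) / p) ^ 2 = (H : ℝ) / p * H := by field_simp
  have h2 : (0 : ℝ) ≤ (H : ℝ) / p * H := by positivity
  linarith

theorem gg_blk {H : ℕ} (R : Finset ℕ) (hR : ∀ p ∈ R, H < p) (x : ℕ) : ∑ p ∈ R, gg H p x =
    (R.filter fun p => ∃ j ∈ Icc 1 H, p ∣ x + j).card - H * ∑ p ∈ R, (1 : ℝ) / p := by
  rw [← sum_boole, mul_sum, ← sum_sub_distrib]
  refine sum_congr rfl fun p hp => ?_
  have e : ∀ j : ℕ, (p : ℤ) ∣ (x : ℤ) + j ↔ p ∣ x + j := fun j => by norm_cast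
  simp only [gg, if_pos (hR p hp), e, mul_one_div]

theorem lt_ww (H : ℕ) : H < ww H :=
  (Nat.le_self_pow (by norm_num) H).trans_lt Nat.lt_two_pow_self

theorem mu : ∀ᶠ H : ℕ in atTop, ∀ i < 17,
    1 / 200 ≤ ∑ p ∈ pri (ww H ^ (90 + i)) (ww H ^ (91 + i)), (1 : ℝ) / p := by
  obtain ⟨C, hC⟩ := mer.1
  filter_upwards [eventually_ge_atTop 1, eventually_ge_atTop ⌈250 * C⌉₊] with H h1 h2 i hi
  have w2 : 2 ≤ ww H := lt_of_le_of_lt h1 (lt_ww H)
  have a1 := (abs_le.1 (hC (ww H ^ (90 + i)) (ww H ^ (91 + i))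
    (w2.trans (Nat.le_self_pow (by omega) _)) (Nat.pow_le_pow_right (by omega) (by omega)))).1
  have a2 : (H : ℝ) ≤ 2 * Real.log (ww H) := by
    have b1 : (H : ℝ) ≤ (H ^ 8 : ℕ) := by exact_mod_cast Nat.le_self_pow (by norm_num) H
    rw [ww, Nat.cast_pow, Real.log_pow, Nat.cast_ofNat]
    nlinarith [Real.log_two_gt_d9, Nat.cast_nonneg (α := ℝ) H]
  have a3 : 250 * C ≤ H := (Nat.le_ceil _).trans (by exact_mod_cast h2)
  have a4 : (1 : ℝ) ≤ H := by exact_mod_cast h1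
  have a5 : (i : ℝ) ≤ 16 := by exact_mod_cast Nat.lt_succ_iff.1 hi
  have a6 : (0 : ℝ) ≤ i := Nat.cast_nonneg i
  rw [Nat.cast_pow, Nat.cast_pow, Real.log_pow, Real.log_pow] at a1
  generalize Real.log (ww H) = L at a1 a2
  have a7 : 0 < L := by linarith
  push_cast at a1
  rw [mul_div_mul_right _ _ a7.ne'] at a1
  have a8 := Real.one_sub_inv_le_log_of_pos (x := (91 + i) / (90 + i)) (by positivity)
  have a9 : 1 / 107 ≤ 1 - ((91 + i : ℝ) / (90 + i))⁻¹ := by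
    rw [inv_div, le_sub_comm, div_le_iff₀ (by positivity)]
    linarith
  have a10 : C / ((90 + i) * L) ≤ 1 / 250 := by
    rw [div_le_iff₀ (by positivity)]
    nlinarith
  linarith

theorem fin {ε H A Y B : ℝ} (hH : 0 < H) (h1 : 14 * 800 ^ 17 ≤ ε * H) (hA : 0 ≤ A)
    (hY : A * H ^ 17 ≤ Y) (hB : B ≤ 7 * Y * (800 / H) ^ 17 + 2 * A) : B ≤ ε * Y / H ^ 16 := by
  have a0 : 0 ≤ Y := le_trans (by positivity) hY
  have a1 : A ≤ Y / H ^ 17 := by rwa [le_div_iff₀ (by positivity)]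
  have a2 : ε * Y / H ^ 16 = ε * H * (Y / H ^ 17) := by field_simp
  have a3 : 7 * Y * (800 / H) ^ 17 = 7 * 800 ^ 17 * (Y / H ^ 17) := by field_simp
  have a4 : 0 ≤ Y / H ^ 17 := by positivity
  have a5 := mul_le_mul_of_nonneg_right h1 a4
  rw [a2]
  rw [a3] at hB
  linarith

theorem core {H B N A : ℝ} (m : ℕ → ℝ) (hH : 400 ≤ H) (hN : 0 ≤ N) (hA : 0 ≤ A)
    (hm : ∀ i ∈ range 17, H / 200 ≤ m i)
    (h : B * ∏ i ∈ range 17, (m i / 2) ^ 2 ≤ N * ∏ i ∈ range 17, m i + A) :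
    B ≤ N * (800 / H) ^ 17 + A := by
  have a1 : 1 ≤ ∏ i ∈ range 17, (m i / 2) ^ 2 := by
    rw [← prod_const_one (s := range 17)]
    exact prod_le_prod (fun _ _ => zero_le_one) fun i hi =>
      one_le_pow₀ (by linarith [hm i hi])
  have a2 : ∏ i ∈ range 17, m i ≤ (800 / H) ^ 17 * ∏ i ∈ range 17, (m i / 2) ^ 2 := by
    rw [← card_range 17, ← prod_const, card_range, ← prod_mul_distrib]
    refine prod_le_prod (fun i hi => by linarith [hm i hi]) fun i hi => ?_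
    have b1 := hm i hi
    rw [div_mul_eq_mul_div, le_div_iff₀ (by linarith)]
    nlinarith
  generalize ∏ i ∈ range 17, (m i / 2) ^ 2 = Q at *
  refine le_of_mul_le_mul_right (h.trans ?_) (by linarith : 0 < Q)
  have a3 := mul_le_mul_of_nonneg_left a2 hN
  have a4 := mul_le_mul_of_nonneg_left a1 hA
  linarith

end M2

open M2

theorem m2 : M1Stmt → M2Stmt := by
  intro hM ε hε
  filter_upwards [mu, eventually_ge_atTop 400, eventually_ge_atTop ⌈14 * 800 ^ 17 / ε⌉₊]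
    with H h1 h2 h3
  have w1 := lt_ww H
  have hp : ∀ i, ∀ p ∈ pri (ww H ^ (90 + i)) (ww H ^ (91 + i)), H < p := fun i p h =>
    (w1.trans_le (Nat.le_self_pow (by omega) _)).trans (Mer.mem_pri.1 h).1.1
  have key := hM 17 (ww H ^ 107) (7 * YY H) (fun i => pri (ww H ^ (90 + i)) (ww H ^ (91 + i)))
    (gg H) (YY H + 1) (Nat.one_le_pow _ _ (by omega))
    (fun i hi p h => ⟨(Mer.mem_pri.1 h).2,
      (Mer.mem_pri.1 h).1.2.trans (Nat.pow_le_pow_right (by omega) (by omega))⟩)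
    (fun i _ j _ hij => disjoint_left.2 fun p a b => by
      have a1 := (Mer.mem_pri.1 a).1
      have b1 := (Mer.mem_pri.1 b).1
      have c1 := (Nat.pow_lt_pow_iff_right (by omega)).1 (a1.1.trans_le b1.2)
      have c2 := (Nat.pow_lt_pow_iff_right (by omega)).1 (b1.1.trans_le a1.2)
      omega)
    (gg_per H) (gg_abs H) fun i _ p h => gg_sum (hp i p h)
  have hH : (400 : ℝ) ≤ H := by exact_mod_cast h2
  have hw : (H : ℝ) ≤ ww H := by exact_mod_cast w1.le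
  refine fin (A := ((ww H ^ 107 : ℕ) : ℝ) ^ (4 * 17)) (by linarith) ?_ (by positivity) ?_ ?_
  · have := (Nat.le_ceil _).trans (Nat.cast_le.2 h3)
    rwa [div_le_iff₀ hε, mul_comm _ ε] at this
  · rw [YY, Nat.cast_pow, Nat.cast_pow, ← pow_mul]
    refine (mul_le_mul_of_nonneg_left (pow_le_pow_left₀ (by linarith) hw 17)
      (by positivity)).trans ?_
    rw [← pow_add]
    exact pow_le_pow_right₀ (by linarith) (by norm_num)
  refine core (fun i => H * ∑ p ∈ pri (ww H ^ (90 + i)) (ww H ^ (91 + i)), (1 : ℝ) / p) hH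
    (by positivity) (by positivity) (fun i hi => ?_) ?_
  · have := mul_le_mul_of_nonneg_left (h1 i (mem_range.1 hi)) (Nat.cast_nonneg H)
    linarith
  refine le_trans ?_ (key.trans ?_)
  · rw [← nsmul_eq_mul]
    refine (card_nsmul_le_sum _ (fun x : ℕ => ∏ i ∈ range 17,
      (∑ p ∈ pri (ww H ^ (90 + i)) (ww H ^ (91 + i)), gg H p x) ^ 2) _ fun x hx => ?_).trans ?_
    · refine prod_le_prod (fun _ _ => sq_nonneg _) fun i hi => ?_
      have a1 := (mem_filter.1 hx).2 i (mem_range.1 hi)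
      have a2 := mul_le_mul_of_nonneg_left (h1 i (mem_range.1 hi)) (Nat.cast_nonneg H)
      have a3 := (Nat.cast_le (α := ℝ)).2 a1
      rw [gg_blk _ (hp i), ← neg_sub, neg_sq]
      rw [Nat.cast_mul, Nat.cast_ofNat] at a3
      exact pow_le_pow_left₀ (by linarith) (by linarith) 2
    · rw [← sum_image (g := fun x : ℕ => (x : ℤ)) (f := fun x : ℤ => ∏ i ∈ range 17,
        (∑ p ∈ pri (ww H ^ (90 + i)) (ww H ^ (91 + i)), gg H p x) ^ 2)
        Nat.cast_injective.injOn]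
      refine sum_le_sum_of_subset_of_nonneg (fun z hz => ?_)
        fun _ _ _ => prod_nonneg fun _ _ => sq_nonneg _
      obtain ⟨x, hx, rfl⟩ := mem_image.1 hz
      have a1 := mem_Ioc.1 (mem_filter.1 hx).1
      rw [mem_Ico]
      omega
  · rw [Nat.cast_mul, Nat.cast_ofNat]
    refine add_le_add_left (mul_le_mul_of_nonneg_left (prod_le_prod (fun _ _ => by positivity)
      fun i _ => ?_) (by positivity)) _
    rw [mul_sum]
    exact sum_le_sum fun p h => gg_sq (hp i p h)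

end Pool.Agent.MP_08f4e9_nt.RD
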