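import Pool.Agent.MP_08f4e9_nt.Spec

/-! Project RD, row MOM: few shifts with a large prime factor force few primes in every block. -/

set_option autoImplicit false

noncomputable section

namespace Pool.Agent.MP_08f4e9_nt.RD

open Finset Filter Pool.Agent.MP_35c637_nt.OS
open Pool.Agent.MP_a43263_nt.R2 hiding sg

open Classical

namespace Mom

theorem few {w m : ℕ} (hw : 2 ≤ w) (h0 : 0 < m) (hm : m ≤ w ^ 10004) (b : ℕ) :
    ((pri (w ^ 90) b).filter fun p => p ∣ m).card ≤ 111 := by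
  have h1 : ∀ p ∈ (pri (w ^ 90) b).filter fun p => p ∣ m, (w ^ 90 < p ∧ p.Prime) ∧ p ∣ m :=
    fun p hp => ⟨⟨(Mer.mem_pri.1 (mem_filter.1 hp).1).1.1, (Mer.mem_pri.1 (mem_filter.1 hp).1).2⟩,
      (mem_filter.1 hp).2⟩
  generalize ((pri (w ^ 90) b).filter fun p => p ∣ m) = S at h1
  have h2 : ∏ p ∈ S, p ∣ m :=
    Finset.prod_primes_dvd m (fun p hp => (h1 p hp).1.2.prime) fun p hp => (h1 p hp).2
  have h3 : (w ^ 90) ^ S.card ≤ ∏ p ∈ S, p := pow_card_le_prod S _ _ fun p hp => (h1 p hp).1.1.le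
  have h4 := (h3.trans (Nat.le_of_dvd h0 h2)).trans hm
  rw [← pow_mul, Nat.pow_le_pow_iff_right (by omega)] at h4
  omega

theorem size {w H x j : ℕ} (hw : 2 ≤ w) (hH : H ≤ w) (hx : x ≤ 8 * w ^ 10000) (hj : j ≤ H) :
    x + j ≤ w ^ 10004 := by
  have h1 : w ≤ w ^ 10000 := Nat.le_self_pow (by norm_num) w
  have h2 : 2 ^ 4 ≤ w ^ 4 := Nat.pow_le_pow_left hw 4
  have h3 : w ^ 10004 = w ^ 4 * w ^ 10000 := by rw [← pow_add]
  have h4 := Nat.mul_le_mul_right (w ^ 10000) h2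
  rw [h3]
  generalize w ^ 4 * w ^ 10000 = A at h4
  generalize w ^ 10000 = B at h1 hx h4
  omega

theorem cover {w H x i : ℕ} (hw : 2 ≤ w) (hH : H ≤ w) (hx : x ≤ 8 * w ^ 10000) (hi : i < 17) :
    ((pri (w ^ (90 + i)) (w ^ (91 + i))).filter fun p => ∃ j ∈ Icc 1 H, p ∣ x + j).card ≤
      ((Icc 1 H).filter fun j => ∃ p ∈ pri (w ^ 90) (w ^ 107), p ∣ x + j).card * 111 := by
  refine (card_le_card (t := ((Icc 1 H).filter fun j =>
    ∃ p ∈ pri (w ^ 90) (w ^ 107), p ∣ x + j).biUnion fun j =>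
      (pri (w ^ 90) (w ^ 107)).filter fun p => p ∣ x + j) fun p hp => ?_).trans
    (card_biUnion_le_card_mul _ _ _ fun j hj => ?_)
  · obtain ⟨h1, j, hj, h2⟩ := mem_filter.1 hp
    obtain ⟨⟨h3, h4⟩, h5⟩ := Mer.mem_pri.1 h1
    have h6 : p ∈ pri (w ^ 90) (w ^ 107) := Mer.mem_pri.2
      ⟨⟨(Nat.pow_le_pow_right (by omega) (by omega)).trans_lt h3,
        h4.trans (Nat.pow_le_pow_right (by omega) (by omega))⟩, h5⟩
    exact mem_biUnion.2 ⟨j, (@mem_filter _ _ (_) _ _).2 ⟨hj, p, h6, h2⟩, mem_filter.2 ⟨h6, h2⟩⟩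
  · obtain ⟨h1, h2⟩ := mem_Icc.1 ((@mem_filter _ _ (_) _ _).1 hj).1
    exact few hw (by omega) (size hw hH hx h2) _

end Mom

theorem mom : M2Stmt → MOMStmt := by
  intro h ε hε
  filter_upwards [h ε hε, eventually_ge_atTop 1] with H hH H1
  refine le_trans (Nat.cast_le.2 (card_le_card fun x hx => ?_)) hH
  obtain ⟨h1, h2⟩ := mem_filter.1 hx
  have w1 : H < ww H := (Nat.le_self_pow (by norm_num) H).trans_lt Nat.lt_two_pow_self
  refine mem_filter.2 ⟨h1, fun i hi => ?_⟩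
  have h3 := Mom.cover (by omega) w1.le (mem_Ioc.1 h1).2 hi
  omega

end Pool.Agent.MP_08f4e9_nt.RD
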