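import Pool.Agent.MP_08f4e9_nt.Spec

/-! Row RL: few primes `p` have `p n - j` prime. -/

set_option autoImplicit false

noncomputable section

namespace Pool.Agent.MP_08f4e9_nt.RD

open Finset Filter Pool.Agent.MP_35c637_nt.OS
open Pool.Agent.MP_a43263_nt.R2 hiding sg

open Classical

namespace Rl

theorem core : ∃ C : ℝ, 0 < C ∧ ∃ y0 : ℕ, 4 ≤ y0 ∧ ∀ w : ℕ, y0 ≤ w → ∀ (n j N : ℕ) (T : Finset ℕ),
    1 ≤ n → 1 ≤ j →
    (∀ p ∈ T, p < N ∧ p.Prime ∧ w < p ∧ ∃ l : ℕ, l.Prime ∧ w < l ∧ l + j = p * n) →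
    (T.card : ℝ) ≤ C * sg n * sg j * N / Real.log w ^ 2 + 2 * (w : ℝ) ^ 60 := by
  obtain ⟨y0, h4, hg⟩ := gs
  obtain ⟨c, hc, hl⟩ := lowE
  refine ⟨18 / c ^ 2, by positivity, y0, h4, fun y hy n j N T hn hj hT => ?_⟩
  have lz : 0 < Real.log y := Real.log_pos (by exact_mod_cast (by omega : 1 < y))
  have k := hg y hy 1 0 n (-(j : ℤ)) ((pri 3 y).filter fun p => ¬p ∣ 1)
    ((pri 3 y).filter fun p => ¬p ∣ n * j) 0 N (T.image fun c : ℕ => (c : ℤ))
    (filter_subset _ _)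
    (fun p hp => mem_filter.2 ⟨(mem_filter.1 hp).1, fun h =>
      (mem_filter.1 hp).2 (h.trans (one_dvd _))⟩)
    (fun p hp h => (mem_filter.1 hp).2 (by exact_mod_cast h))
    (fun p hp => ⟨fun h => (mem_filter.1 hp).2
        (Dvd.dvd.mul_right (Int.natCast_dvd_natCast.1 h) _),
      fun h => (mem_filter.1 hp).2 (Dvd.dvd.mul_left (Int.natCast_dvd_natCast.1 (by
        simpa using h)) _)⟩)
    (fun m hm => by
      obtain ⟨c, hc', rfl⟩ := mem_image.1 hm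
      obtain ⟨a1, a2, a3, l, a4, a5, a6⟩ := hT c hc'
      refine ⟨by positivity, by simpa using a1, fun p hp => ?_, fun p hp => ?_⟩
      · simpa using ndvd (mem_filter.1 hp).1 a2 a3
      · have e : (n : ℤ) * c + -(j : ℤ) = l := by
          have : (l : ℤ) + j = c * n := by exact_mod_cast a6
          linarith
        rw [e]
        exact ndvd (mem_filter.1 hp).1 a4 a5)
  rw [card_image_of_injective _ Nat.cast_injective] at k
  refine k.trans (add_le_add ?_ le_rfl)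
  have s1 : sg 1 = 1 := by simp [sg, E]
  have e1 := (hl 3 y 1 (by norm_num) (by omega) one_ne_zero).trans (mul_le_mul_of_nonneg_right log3
    (mul_pos (one_pos.trans_le (one_le_sg _)) (E_pos _)).le)
  rw [s1, one_mul] at e1
  have e2 := (hl 3 y (n * j) (by norm_num) (by omega)
    (Nat.mul_ne_zero (by omega) (by omega))).trans
    (mul_le_mul log3 (mul_le_mul_of_nonneg_right (sg_mul (by omega) (by omega)) (E_pos _).le)
      (mul_pos (one_pos.trans_le (one_le_sg _)) (E_pos _)).le (by norm_num))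
  have e3 := mul_le_mul e1 e2 (by positivity) (le_trans (by positivity) e1)
  have p1 := E_pos ((pri 3 y).filter fun p => ¬p ∣ 1)
  have p2 := E_pos ((pri 3 y).filter fun p => ¬p ∣ n * j)
  rw [div_le_div_iff₀ (mul_pos p1 p2) (by positivity)]
  have e4 := mul_le_mul_of_nonneg_left e3 (show 0 ≤ 2 * (N : ℝ) / c ^ 2 by positivity)
  refine le_trans (le_of_eq ?_) (e4.trans (le_of_eq ?_))
  · field_simp
  · field_simp
    ring

theorem arith {C S Z N L w H : ℝ} (hC : 0 < C) (hS : 1 ≤ S) (hH : 1 ≤ H) (hw : H ≤ w) (h2 : 2 ≤ w)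
    (hZ : w ^ 90 ≤ 9 * Z) (hN : N ≤ 9 * Z + 1) (hL : H ^ 8 / 2 ≤ L) :
    C * S * N / L ^ 2 + 2 * w ^ 60 ≤ (40 * C + 1) * S * Z / H ^ 16 := by
  have a1 : (18 : ℝ) ≤ w ^ 14 := le_trans (by norm_num) (pow_le_pow_left₀ (by norm_num) h2 14)
  have a2 : H ^ 16 ≤ w ^ 16 := pow_le_pow_left₀ (by linarith) hw 16
  have a3 : 18 * H ^ 16 ≤ w ^ 14 * w ^ 16 := mul_le_mul a1 a2 (by positivity) (by positivity)
  have w0 : 0 < w := by linarith
  have H0 : 0 < H := by linarith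
  have a4 : 18 * H ^ 16 * w ^ 60 ≤ w ^ 14 * w ^ 16 * w ^ 60 :=
    mul_le_mul_of_nonneg_right a3 (by positivity)
  have a5 : w ^ 14 * w ^ 16 * w ^ 60 = w ^ 90 := by ring
  have a6 : 2 * w ^ 60 * H ^ 16 ≤ Z := by linarith
  have b1 : (1 : ℝ) ≤ H ^ 16 := one_le_pow₀ hH
  have b2 : (1 : ℝ) ≤ w ^ 60 := one_le_pow₀ (by linarith)
  have b3 : (1 : ℝ) ≤ w ^ 60 * H ^ 16 := one_le_mul_of_one_le_of_one_le b2 b1
  have b4 : 1 ≤ Z := by linarith
  have c1 : H ^ 16 / 4 ≤ L ^ 2 := by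
    have := pow_le_pow_left₀ (by positivity) hL 2
    calc H ^ 16 / 4 = (H ^ 8 / 2) ^ 2 := by ring
      _ ≤ _ := this
  have c2 : C * S * N / L ^ 2 ≤ C * S * (10 * Z) / (H ^ 16 / 4) :=
    div_le_div₀ (by positivity) (mul_le_mul_of_nonneg_left (by linarith) (by positivity))
      (by positivity) c1
  have c3 : 2 * w ^ 60 ≤ S * Z / H ^ 16 := by
    rw [le_div_iff₀ (by positivity)]
    exact a6.trans (le_mul_of_one_le_left (by linarith) hS)
  have c4 : C * S * (10 * Z) / (H ^ 16 / 4) + S * Z / H ^ 16 = (40 * C + 1) * S * Z / H ^ 16 := by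
    field_simp
    ring
  linarith

theorem main {C : ℝ} (hC : 0 < C) {w Y A B H n j : ℕ} (hH : 1 ≤ H) (hw : H ≤ w) (h2 : 2 ≤ w)
    (hY : w ≤ Y) (hA : A = w ^ 90) (hL : (H : ℝ) ^ 8 / 2 ≤ Real.log w) (hn : 1 ≤ n) (hj : j ≤ H)
    (hc : ∀ (N : ℕ) (T : Finset ℕ),
      (∀ p ∈ T, p < N ∧ p.Prime ∧ w < p ∧ ∃ l : ℕ, l.Prime ∧ w < l ∧ l + j = p * n) →
      (T.card : ℝ) ≤ C * sg n * sg j * N / Real.log w ^ 2 + 2 * (w : ℝ) ^ 60) :
    (((pri A B).filter fun p =>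
      ∃ l : ℕ, l.Prime ∧ Y < l ∧ l ≤ 8 * Y ∧ l + j = p * n).card : ℝ) ≤
        (40 * C + 1) * sg n * sg j * Y / (n * (H : ℝ) ^ 16) := by
  have s1 := one_le_sg n
  have s2 := one_le_sg j
  have n0 : (0 : ℝ) < n := by exact_mod_cast hn
  have hwA : w ≤ A := hA ▸ Nat.le_self_pow (by norm_num) w
  rcases ((pri A B).filter fun p =>
      ∃ l : ℕ, l.Prime ∧ Y < l ∧ l ≤ 8 * Y ∧ l + j = p * n).eq_empty_or_nonempty with h | ⟨p, hp⟩
  · rw [h, card_empty, Nat.cast_zero]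
    positivity
  obtain ⟨hp1, l, -, -, a3, a4⟩ := mem_filter.1 hp
  have hAp : A < p := (Mer.mem_pri.1 hp1).1.1
  have b1 : A * n ≤ 9 * Y := (Nat.mul_le_mul_right n hAp.le).trans (by omega)
  have b2 : (w : ℝ) ^ 90 ≤ 9 * ((Y : ℝ) / n) := by
    rw [← mul_div_assoc, le_div_iff₀ n0]
    rw [hA] at b1
    exact_mod_cast b1
  have b3 : ((9 * Y / n + 1 : ℕ) : ℝ) ≤ 9 * ((Y : ℝ) / n) + 1 := by
    have := Nat.cast_div_le (α := ℝ) (m := 9 * Y) (n := n)
    push_cast at this ⊢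
    rw [← mul_div_assoc]
    linarith
  have k := hc (9 * Y / n + 1) ((pri A B).filter fun p =>
      ∃ l : ℕ, l.Prime ∧ Y < l ∧ l ≤ 8 * Y ∧ l + j = p * n) fun q hq => by
    obtain ⟨hq1, l, c1, c2, c3, c4⟩ := mem_filter.1 hq
    obtain ⟨⟨d1, -⟩, d2⟩ := Mer.mem_pri.1 hq1
    refine ⟨Nat.lt_succ_of_le ((Nat.le_div_iff_mul_le hn).2 (by omega)), d2, by omega, l, c1,
      by omega, c4⟩
  have r := arith (N := ((9 * Y / n + 1 : ℕ) : ℝ)) (w := (w : ℝ)) (H := (H : ℝ)) hC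
    (one_le_mul_of_one_le_of_one_le s1 s2) (by exact_mod_cast hH) (by exact_mod_cast hw)
    (by exact_mod_cast h2) b2 b3 hL
  rw [← mul_assoc] at r
  refine (k.trans r).trans (le_of_eq ?_)
  have H0 : (0 : ℝ) < H := by exact_mod_cast hH
  field_simp

theorem le_ww (H : ℕ) : H ≤ ww H :=
  (Nat.le_self_pow (by norm_num) H).trans (Nat.lt_two_pow_self (n := H ^ 8)).le

theorem log_ww (H : ℕ) : (H : ℝ) ^ 8 / 2 ≤ Real.log (ww H) := by
  have e : Real.log (ww H) = (H : ℝ) ^ 8 * Real.log 2 := by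
    rw [ww]
    push_cast
    rw [Real.log_pow]
    push_cast
    rfl
  have := Real.log_two_gt_d9
  have p : (0 : ℝ) ≤ (H : ℝ) ^ 8 := by positivity
  rw [e]
  nlinarith

theorem ww_le (H : ℕ) : ww H ≤ YY H := Nat.le_self_pow (by norm_num) _

end Rl

theorem rl : RLStmt := by
  obtain ⟨C, hC, y0, h4, h⟩ := Rl.core
  refine ⟨40 * C + 1, by positivity, eventually_atTop.2 ⟨y0, fun H hH n j hn hj hjH => ?_⟩⟩
  have a := Rl.le_ww H
  exact Rl.main hC (by omega) a (by omega) (Rl.ww_le H) rfl (Rl.log_ww H) hn hjH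
    fun N T hT => h (ww H) (by omega) n j N T hn hj hT

end Pool.Agent.MP_08f4e9_nt.RD
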