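import Pool.Agent.MP_08f4e9_nt.Spec

/-! Project RD: three prime values `p`, `n p - 1`, `n p + h - 1`. -/

set_option autoImplicit false

noncomputable section

namespace Pool.Agent.MP_08f4e9_nt.RD

open Finset Filter Pool.Agent.MP_35c637_nt.OS
open Pool.Agent.MP_a43263_nt.R2 hiding sg

open Classical

namespace Rs

theorem nd {p t y : ℕ} (hp : p ∈ pri 6 y) (ht : t.Prime) (h : y < t) : ¬(p : ℤ) ∣ (t : ℤ) := by
  obtain ⟨⟨-, a2⟩, a3⟩ := Mer.mem_pri.1 hp
  rw [Int.natCast_dvd_natCast, Nat.prime_dvd_prime_iff_eq a3 ht]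
  omega

theorem nd1 {p y : ℕ} (hp : p ∈ pri 6 y) : ¬(p : ℤ) ∣ 1 := fun h =>
  (Mer.mem_pri.1 hp).2.one_lt.ne' (by exact_mod_cast Int.eq_one_of_dvd_one (Int.natCast_nonneg p) h)

theorem log6 : 1 + Real.log (6 : ℕ) ≤ 6 := by
  have := Real.log_le_sub_one_of_pos (show (0 : ℝ) < (6 : ℕ) by norm_num)
  push_cast at this ⊢
  linarith

theorem main {c G S E1 E2 E3 N Z : ℝ} (hc : 0 < c) (hG : 0 < G) (hS : 0 ≤ S) (h1 : 0 < E1)
    (h2 : 0 < E2) (h3 : 0 < E3) (hZ : 0 ≤ Z) (hN : N ≤ 10 * Z) (e1 : c * G ≤ 12 * E1)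
    (e2 : c * G ≤ 12 * (S * E2)) (e3 : c * G ≤ 12 * (S * S * S * E3)) :
    2 * N / (E1 * E2 * E3) ≤ 34560 / c ^ 3 * S ^ 4 * Z / G ^ 3 := by
  have p0 : 0 ≤ c * G := by positivity
  have e4 := mul_le_mul (mul_le_mul e1 e2 p0 (by positivity)) e3 p0 (by positivity)
  have e5 := mul_le_mul_of_nonneg_left e4 (show 0 ≤ 20 * Z / c ^ 3 by positivity)
  refine (div_le_div_of_nonneg_right (show 2 * N ≤ 20 * Z by linarith) (by positivity)).trans ?_
  rw [div_le_div_iff₀ (by positivity) (by positivity)]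
  refine le_trans (le_of_eq ?_) (e5.trans (le_of_eq ?_))
  · field_simp
  · field_simp
    ring

end Rs

theorem rs : GS3Stmt → SG2Stmt → RSStmt := by
  rintro ⟨y0, hg⟩ ⟨D, hD, hs⟩
  obtain ⟨c, hc, hl⟩ := lowE
  refine ⟨34560 / c ^ 3 * D ^ 4 + 1, by positivity, ?_⟩
  filter_upwards [hs, eventually_ge_atTop 3, eventually_ge_atTop y0] with H hs H3 Hy
  intro n h hn hnw h2 hH
  have H0 : (0 : ℝ) < H := by exact_mod_cast (by omega : 0 < H)
  have n0 : (0 : ℝ) < n := by exact_mod_cast hn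
  have lH : 1 ≤ Real.log H := by
    rw [Real.le_log_iff_exp_le H0]
    have a1 : (3 : ℝ) ≤ H := by exact_mod_cast H3
    linarith [Real.exp_one_lt_d9]
  have u1 : H ^ 6 ≤ uu H := Nat.lt_two_pow_self.le
  have u2 : 3 ^ 6 ≤ H ^ 6 := Nat.pow_le_pow_left H3 6
  have u3 : H ≤ H ^ 6 := Nat.le_self_pow (by norm_num) H
  have u4 : uu H ≤ ww H :=
    Nat.pow_le_pow_right (by norm_num) (Nat.pow_le_pow_right (by omega) (by norm_num))
  have u5 : ww H ≤ YY H := Nat.le_self_pow (by norm_num) _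
  have u6 : ww H ≤ ww H ^ 10001 := Nat.le_self_pow (by norm_num) _
  have u7 : uu H ≤ uu H ^ 100 := Nat.le_self_pow (by norm_num) _
  have lu : (H : ℝ) ^ 6 / 2 ≤ Real.log (uu H) := by
    unfold uu
    push_cast
    rw [Real.log_pow]
    push_cast
    have a1 := Real.log_two_gt_d9
    have a2 : (0 : ℝ) < (H : ℝ) ^ 6 := by positivity
    nlinarith
  have u8 : 18 * H ^ 18 * uu H ^ 84 ≤ uu H ^ 100 := by
    have a1 : H ^ 18 ≤ uu H ^ 3 := by
      rw [show H ^ 18 = (H ^ 6) ^ 3 by ring]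
      exact Nat.pow_le_pow_left u1 3
    have a2 : 18 ≤ uu H ^ 13 := le_trans (by omega) (Nat.le_self_pow (by norm_num) (uu H))
    rw [show uu H ^ 100 = uu H ^ 13 * uu H ^ 3 * uu H ^ 84 by ring]
    exact Nat.mul_le_mul_right _ (Nat.mul_le_mul a2 a1)
  generalize uu H = u at *
  generalize YY H = Y at *
  set T := (pri (u ^ 100) (ww H)).filter fun p =>
    ∃ l : ℕ, l.Prime ∧ Y < l ∧ l ≤ 8 * Y ∧ l + 1 = p * n ∧ (l + h).Prime with hT
  rcases T.eq_empty_or_nonempty with e | ⟨p0, hp0⟩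
  · rw [e, card_empty, Nat.cast_zero]
    positivity
  have big : u ^ 100 * n ≤ 9 * Y := by
    obtain ⟨a1, l, -, -, a2, a3, -⟩ := mem_filter.1 hp0
    have a4 := Nat.mul_le_mul_right n (Mer.mem_pri.1 a1).1.1.le
    omega
  have nY : n ≤ Y := by
    have a1 : 9 * n ≤ u ^ 100 * n := Nat.mul_le_mul_right n (by omega)
    omega
  have hm : n * h * (h - 1) ≠ 0 := Nat.mul_ne_zero (Nat.mul_ne_zero (by omega) (by omega)) (by omega)
  have c1 : ((h - 1 : ℕ) : ℤ) = h - 1 := by omega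
  have k := hg u (by omega) 1 0 n (-1) n (h - 1) (pri 6 u) ((pri 6 u).filter fun p => ¬p ∣ n)
    ((pri 6 u).filter fun p => ¬p ∣ n * h * (h - 1)) 0 (9 * Y / n + 1)
    (T.image fun p : ℕ => (p : ℤ)) subset_rfl (filter_subset _ _)
    (fun p hp => mem_filter.2 ⟨(mem_filter.1 hp).1, fun b =>
      (mem_filter.1 hp).2 ((b.mul_right _).mul_right _)⟩)
    (fun p hp => Rs.nd1 hp)
    (fun p hp => ⟨fun b => (mem_filter.1 hp).2 (Int.natCast_dvd_natCast.1 b),
      fun b => Rs.nd1 (mem_filter.1 hp).1 (by simpa using b)⟩)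
    (fun p hp => ⟨fun b => (mem_filter.1 hp).2
        (((Int.natCast_dvd_natCast.1 b).mul_right _).mul_right _),
      fun b => (mem_filter.1 hp).2 (Dvd.dvd.mul_left (Int.natCast_dvd_natCast.1 (by
        rw [c1]
        simpa using b)) _),
      fun b => (mem_filter.1 hp).2 (Dvd.dvd.mul_right (Int.natCast_dvd_natCast.1 (by
        rw [show (n : ℤ) * (h - 1) - n * -1 = ((n * h : ℕ) : ℤ) by push_cast; ring] at b
        exact b)) _)⟩)
    (fun x hx => by
      obtain ⟨p, hp, rfl⟩ := mem_image.1 hx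
      obtain ⟨a1, l, a2, a3, a4, a5, a6⟩ := mem_filter.1 hp
      obtain ⟨⟨b1, -⟩, b2⟩ := Mer.mem_pri.1 a1
      have b3 : p ≤ 9 * Y / n := (Nat.le_div_iff_mul_le hn).2 (by omega)
      have b4 : (l : ℤ) + 1 = p * n := by exact_mod_cast a5
      refine ⟨Int.natCast_nonneg p, ?_, fun r hr => ?_, fun r hr => ?_, fun r hr => ?_⟩
      · rw [zero_add]
        exact_mod_cast Nat.lt_succ_of_le b3
      · rw [one_mul, add_zero]
        exact Rs.nd hr b2 (by omega)
      · rw [show (n : ℤ) * p + -1 = l by linarith]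
        exact Rs.nd (mem_filter.1 hr).1 a2 (by omega)
      · rw [show (n : ℤ) * p + (h - 1) = ((l + h : ℕ) : ℤ) by push_cast; linarith]
        exact Rs.nd (mem_filter.1 hr).1 a6 (by omega))
  rw [card_image_of_injective _ Nat.cast_injective] at k
  have low : ∀ m : ℕ, m ≠ 0 → c * (H : ℝ) ^ 6 ≤
      12 * (sg m * E ((pri 6 u).filter fun p => ¬p ∣ m)) := fun m h0 => by
    have a1 := (hl 6 u m (by norm_num) (by omega) h0).trans (mul_le_mul_of_nonneg_right Rs.log6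
      (mul_pos (one_pos.trans_le (one_le_sg _)) (E_pos _)).le)
    have a2 := mul_le_mul_of_nonneg_left lu hc.le
    linarith
  have s1 := hs n (by omega) hnw
  have s2 := hs h (by omega) (by omega)
  have s3 := hs (h - 1) (by omega) (by omega)
  have S0 : 0 ≤ D * Real.log H := by positivity
  have s4 : sg (n * h * (h - 1)) ≤ D * Real.log H * (D * Real.log H) * (D * Real.log H) :=
    (sg_mul (Nat.mul_ne_zero (by omega) (by omega)) (by omega)).trans
      (mul_le_mul ((sg_mul (by omega) (by omega)).trans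
        (mul_le_mul s1 s2 (zero_le_one.trans (one_le_sg _)) S0)) s3
        (zero_le_one.trans (one_le_sg _)) (by positivity))
  have e1 : c * (H : ℝ) ^ 6 ≤ 12 * E (pri 6 u) := by
    have a1 := low 1 one_ne_zero
    rw [show sg 1 = 1 by simp [sg, E], one_mul] at a1
    have a2 := E_mono (filter_subset (fun p => ¬p ∣ 1) (pri 6 u))
    linarith
  have e2 := (low n (by omega)).trans (mul_le_mul_of_nonneg_left
    (mul_le_mul_of_nonneg_right s1 (E_pos _).le) (by norm_num))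
  have e3 := (low _ hm).trans (mul_le_mul_of_nonneg_left
    (mul_le_mul_of_nonneg_right s4 (E_pos _).le) (by norm_num))
  have hN : ((9 * Y / n + 1 : ℕ) : ℝ) ≤ 10 * ((Y : ℝ) / n) := by
    have a1 : ((9 * Y / n : ℕ) : ℝ) ≤ ((9 * Y : ℕ) : ℝ) / n := Nat.cast_div_le
    have a2 : (1 : ℝ) ≤ (Y : ℝ) / n := by
      rw [le_div_iff₀ n0, one_mul]
      exact_mod_cast nY
    rw [Nat.cast_mul, mul_div_assoc] at a1
    rw [Nat.cast_add]
    push_cast at a1 ⊢
    linarith
  have m1 := Rs.main hc (by positivity) S0 (E_pos _) (E_pos _) (E_pos _) (by positivity) hN e1 e2 e3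
  have m2 : 2 * (u : ℝ) ^ 84 ≤ Real.log H ^ 4 * Y / (n * (H : ℝ) ^ 18) := by
    have a1 : 2 * u ^ 84 * (n * H ^ 18) ≤ Y := by
      have a2 := Nat.mul_le_mul_right n u8
      have a3 : 18 * H ^ 18 * u ^ 84 * n = 9 * (2 * u ^ 84 * (n * H ^ 18)) := by ring
      omega
    have a4 : 2 * (u : ℝ) ^ 84 * (n * (H : ℝ) ^ 18) ≤ Y := by exact_mod_cast a1
    rw [le_div_iff₀ (by positivity)]
    exact a4.trans (le_mul_of_one_le_left (Nat.cast_nonneg _) (one_le_pow₀ lH))
  refine k.trans ((add_le_add m1 m2).trans (le_of_eq ?_))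
  field_simp

end Pool.Agent.MP_08f4e9_nt.RD

end
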