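import Pool.Agent.MP_08f4e9_nt.Spec
import Mathlib.NumberTheory.Harmonic.Bounds
import Mathlib.Analysis.PSeries

/-! Project RD: few shifts have a large singular series. -/

set_option autoImplicit false

noncomputable section

namespace Pool.Agent.MP_08f4e9_nt.RD

open Finset Filter Pool.Agent.MP_35c637_nt.OS
open Pool.Agent.MP_a43263_nt.R2 hiding sg

open Classical

namespace Sg1

theorem log_sg (m : ℕ) : Real.log (sg m) ≤ ∑ r ∈ m.primeFactors, (1 : ℝ) / r := by
  rw [sg, E, Real.log_prod fun p _ => by positivity]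
  refine sum_le_sum fun p _ => ?_
  have := Real.log_le_sub_one_of_pos (x := 1 + 1 / (p : ℝ)) (by positivity)
  linarith

theorem card_pf {m n : ℕ} (hm : m ≠ 0) (h : m ≤ 2 ^ n) : m.primeFactors.card ≤ n := by
  have h1 : 2 ^ m.primeFactors.card ≤ ∏ p ∈ m.primeFactors, p :=
    pow_card_le_prod _ _ _ fun p hp => (Nat.prime_of_mem_primeFactors hp).two_le
  have h2 := Nat.le_of_dvd (Nat.pos_of_ne_zero hm) (Nat.prod_primeFactors_dvd m)
  exact (Nat.pow_le_pow_iff_right (by norm_num : 1 < 2)).1 (h1.trans (h2.trans h))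

theorem split {m K : ℕ} (hK : 1 ≤ K) (hm : m ≠ 0) (h : m ≤ 2 ^ (10001 * K)) :
    ∑ r ∈ m.primeFactors, (1 : ℝ) / r ≤
      10001 + ∑ r ∈ Ioc 1 K, if r ∣ m then (1 : ℝ) / r else 0 := by
  have hK' : (0 : ℝ) < K := by exact_mod_cast hK
  rw [← sum_filter_add_sum_filter_not m.primeFactors (fun r => K < r), ← sum_filter]
  refine add_le_add ?_ (sum_le_sum_of_subset_of_nonneg (fun r hr => ?_) fun r _ _ => by positivity)
  · have h1 : ∑ r ∈ m.primeFactors.filter (fun r => K < r), (1 : ℝ) / r ≤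
        (m.primeFactors.filter fun r => K < r).card • ((1 : ℝ) / K) :=
      sum_le_card_nsmul _ _ _ fun r hr =>
        one_div_le_one_div_of_le hK' (by exact_mod_cast (mem_filter.1 hr).2.le)
    have h2 : ((m.primeFactors.filter fun r => K < r).card : ℝ) ≤ 10001 * K := by
      exact_mod_cast (card_filter_le _ _).trans (card_pf hm h)
    rw [nsmul_eq_mul, mul_one_div] at h1
    exact h1.trans ((div_le_iff₀ hK').2 h2)
  · obtain ⟨h1, h2⟩ := mem_filter.1 hr
    exact mem_filter.2 ⟨mem_Ioc.2 ⟨(Nat.prime_of_mem_primeFactors h1).one_lt, not_lt.1 h2⟩,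
      Nat.dvd_of_mem_primeFactors h1⟩

theorem cnt (x H : ℕ) {r : ℕ} (hr : 0 < r) :
    (((Icc 1 H).filter fun j => r ∣ x + j).card : ℝ) ≤ H / r + 1 := by
  have h1 : ((Icc 1 H).filter fun j => r ∣ x + j).card ≤ (Ioc (x / r) ((x + H) / r)).card := by
    refine card_le_card_of_injOn (fun j => (x + j) / r) (fun j hj => ?_) fun a ha b hb hab => ?_
    · obtain ⟨h1, c, hc⟩ := mem_filter.1 (mem_coe.1 hj)
      obtain ⟨h2, h3⟩ := mem_Icc.1 h1
      refine mem_coe.2 (mem_Ioc.2 ⟨?_, Nat.div_le_div_right (by omega)⟩)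
      change x / r < (x + j) / r
      rw [hc, Nat.mul_div_cancel_left _ hr, Nat.div_lt_iff_lt_mul hr, mul_comm]
      omega
    · have h2 := Nat.mul_div_cancel' (mem_filter.1 (mem_coe.1 ha)).2
      have h3 := Nat.mul_div_cancel' (mem_filter.1 (mem_coe.1 hb)).2
      have h4 : (x + a) / r = (x + b) / r := hab
      rw [h4] at h2
      omega
  rw [Nat.card_Ioc] at h1
  have h2 : (x + H) / r ≤ x / r + H / r + 1 := by
    rw [Nat.add_div hr]
    split_ifs <;> omega
  have h3 : ((Icc 1 H).filter fun j => r ∣ x + j).card ≤ H / r + 1 :=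
    h1.trans (Nat.sub_le_iff_le_add'.2 (h2.trans_eq (add_assoc _ _ _)))
  have h4 : ((H / r : ℕ) : ℝ) ≤ H / r := Nat.cast_div_le
  have h5 : (((Icc 1 H).filter fun j => r ∣ x + j).card : ℝ) ≤ (H / r : ℕ) + 1 := by
    exact_mod_cast h3
  linarith

theorem small (x H K : ℕ) (hK : 1 ≤ K) :
    ∑ j ∈ Icc 1 H, ∑ r ∈ Ioc 1 K, (if r ∣ x + j then (1 : ℝ) / r else 0) ≤
      H + (1 + Real.log K) := by
  rw [sum_comm]
  have h1 : ∀ r ∈ Ioc 1 K, ∑ j ∈ Icc 1 H, (if r ∣ x + j then (1 : ℝ) / r else 0) ≤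
      H * ((r : ℝ) ^ 2)⁻¹ + (r : ℝ)⁻¹ := fun r hr => by
    have h0 : 0 < r := by have := (mem_Ioc.1 hr).1; omega
    have h2 : (0 : ℝ) < r := by exact_mod_cast h0
    rw [← sum_filter, sum_const, nsmul_eq_mul]
    refine (mul_le_mul_of_nonneg_right (cnt x H h0) (by positivity)).trans (le_of_eq ?_)
    field_simp
  refine (sum_le_sum h1).trans ?_
  rw [sum_add_distrib, ← mul_sum]
  refine add_le_add ?_ ?_
  · have h2 := sum_Ioc_inv_sq_le_sub (α := ℝ) one_ne_zero hK
    have h3 : (0 : ℝ) ≤ (K : ℝ)⁻¹ := by positivity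
    refine mul_le_of_le_one_right (by positivity) ?_
    simp only [Nat.cast_one, inv_one] at h2
    linarith
  · refine le_trans ?_ (harmonic_le_one_add_log K)
    rw [harmonic_eq_sum_Icc]
    push_cast
    exact sum_le_sum_of_subset_of_nonneg Ioc_subset_Icc_self fun r _ _ => by positivity

end Sg1

theorem sg1 : SG1Stmt := by
  obtain ⟨V, hV1, hV⟩ : ∃ V : ℝ, 1 ≤ V ∧ Real.log V = 200000 * 10011 :=
    ⟨Real.exp (200000 * 10011), Real.one_le_exp (by norm_num), Real.log_exp _⟩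
  refine ⟨V, hV1, (eventually_ge_atTop 2).mono fun H hH x hx => ?_⟩
  have hK : 1 ≤ H ^ 8 := Nat.one_le_pow _ _ (by omega)
  have h1 : H ≤ H ^ 8 := Nat.le_self_pow (by norm_num) H
  have h2 : 2 ^ 8 ≤ H ^ 8 := Nat.pow_le_pow_left hH 8
  have h3 : H ^ 8 < ww H := Nat.lt_two_pow_self
  have h4 : ww H ≤ YY H := Nat.le_self_pow (by norm_num) _
  have h5 : 9 * YY H ≤ 2 ^ (10001 * H ^ 8) := by
    rw [mul_comm 10001, pow_mul, pow_succ, mul_comm 9]
    exact Nat.mul_le_mul_left _ (show 9 ≤ ww H by omega)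
  have h6 : ∑ j ∈ Icc 1 H, Real.log (sg (x + j)) ≤ 10011 * H := by
    have h7 : ∀ j ∈ Icc 1 H, Real.log (sg (x + j)) ≤
        10001 + ∑ r ∈ Ioc 1 (H ^ 8), if r ∣ x + j then (1 : ℝ) / r else 0 := fun j hj => by
      obtain ⟨a, b⟩ := mem_Icc.1 hj
      exact (Sg1.log_sg _).trans (Sg1.split hK (by omega) (by omega))
    refine (sum_le_sum h7).trans ?_
    have h8 := Sg1.small x H (H ^ 8) hK
    have h9 : (2 : ℝ) ≤ H := by exact_mod_cast hH
    have h10 := Real.log_le_sub_one_of_pos (x := (H : ℝ)) (by linarith)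
    rw [Nat.cast_pow, Real.log_pow] at h8
    rw [sum_add_distrib, sum_const, Nat.card_Icc, nsmul_eq_mul]
    push_cast at h8 ⊢
    linarith
  have h7 : ((Icc 1 H).filter fun j => V < sg (x + j)).card • (200000 * 10011 : ℝ) ≤
      ∑ j ∈ Icc 1 H, Real.log (sg (x + j)) := by
    refine (card_nsmul_le_sum _ (fun j => Real.log (sg (x + j))) _ fun j hj => ?_).trans
      (sum_le_sum_of_subset_of_nonneg (filter_subset _ _) fun j _ _ =>
        Real.log_nonneg (one_le_E _))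
    rw [← hV]
    exact Real.log_le_log (by linarith) (mem_filter.1 hj).2.le
  rw [nsmul_eq_mul] at h7
  have h8 : (200000 : ℝ) * ((Icc 1 H).filter fun j => V < sg (x + j)).card ≤ H := by linarith
  exact_mod_cast h8

end Pool.Agent.MP_08f4e9_nt.RD
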