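import Pool.Agent.MP_08f4e9_nt.Spec

/-! Project RD, row SG2: a uniform bound for the singular factor. -/

set_option autoImplicit false

noncomputable section

namespace Pool.Agent.MP_08f4e9_nt.RD

open Finset Filter Pool.Agent.MP_35c637_nt.OS
open Pool.Agent.MP_a43263_nt.R2 hiding sg

open Classical

namespace Sg2

theorem big {m y c : ℕ} (hm : m ≠ 0) (hy : 0 < y) (h : m ≤ 2 ^ (c * y)) :
    E (m.primeFactors.filter fun p => y < p) ≤ Real.exp c := by
  have hy' : (0 : ℝ) < y := by exact_mod_cast hy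
  have h1 : 2 ^ m.primeFactors.card ≤ 2 ^ (c * y) :=
    ((pow_card_le_prod _ _ _ fun p hp => (Nat.prime_of_mem_primeFactors hp).two_le).trans
      (Nat.le_of_dvd (Nat.pos_of_ne_zero hm) (Nat.prod_primeFactors_dvd m))).trans h
  have h2 : (m.primeFactors.filter fun p => y < p).card ≤ c * y :=
    (card_filter_le _ _).trans ((Nat.pow_le_pow_iff_right (by norm_num)).1 h1)
  have h3 : ((m.primeFactors.filter fun p => y < p).card : ℝ) ≤ c * y := by exact_mod_cast h2
  calc E (m.primeFactors.filter fun p => y < p)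
      ≤ ∏ _p ∈ m.primeFactors.filter fun p => y < p, Real.exp (1 / y) := by
        refine prod_le_prod (fun p _ => by positivity) fun p hp => ?_
        have h4 : (y : ℝ) ≤ p := by exact_mod_cast (mem_filter.1 hp).2.le
        have h5 := one_div_le_one_div_of_le hy' h4
        linarith [Real.add_one_le_exp (1 / (y : ℝ))]
    _ ≤ Real.exp c := by
        rw [prod_const, ← Real.exp_nat_mul, Real.exp_le_exp, mul_one_div, div_le_iff₀ hy']
        exact h3

end Sg2

theorem sg2 : SG2Stmt := by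
  obtain ⟨C, hC⟩ := mer.2.2.1 1
  obtain ⟨c, hc⟩ : ∃ c : ℕ, c = 10001 := ⟨_, rfl⟩
  refine ⟨8 * (|C| + 1) * Real.exp c, by positivity, ?_⟩
  filter_upwards [eventually_ge_atTop 2] with H hH m hm hw
  have h8 : 2 ≤ H ^ 8 := hH.trans (Nat.le_self_pow (by norm_num) H)
  have h1 := Sg2.big (c := c) hm (show 0 < H ^ 8 by omega)
    (by rwa [ww, ← pow_mul, mul_comm, ← hc] at hw)
  have h2 : E (pri 0 (H ^ 8)) ≤ 8 * (|C| + 1) * Real.log H := by
    have h3 := hC (H ^ 8) h8
    have h4 : 0 ≤ Real.log H := Real.log_natCast_nonneg H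
    have h5 := mul_le_mul_of_nonneg_right (le_abs_self C) h4
    simp only [pow_one, Nat.cast_one, Nat.cast_pow, Real.log_pow, Nat.cast_ofNat] at h3
    unfold E
    linarith
  have h3 : m.primeFactors ⊆ pri 0 (H ^ 8) ∪ m.primeFactors.filter fun p => H ^ 8 < p := by
    intro p hp
    have hp' := Nat.prime_of_mem_primeFactors hp
    by_cases h : H ^ 8 < p
    · exact mem_union_right _ (mem_filter.2 ⟨hp, h⟩)
    · exact mem_union_left _ (Mer.mem_pri.2 ⟨⟨hp'.pos, not_lt.1 h⟩, hp'⟩)
  refine ((E_mono h3).trans (E_union _ _)).trans ?_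
  refine (mul_le_mul h2 h1 (E_pos _).le ((E_pos _).le.trans h2)).trans (le_of_eq ?_)
  ring

end Pool.Agent.MP_08f4e9_nt.RD
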