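import Pool.Agent.MP_08f4e9_nt.Spec

/-! Project RD, row TC: many primes of prime index lie in the window. -/

set_option autoImplicit false

noncomputable section

namespace Pool.Agent.MP_08f4e9_nt.RD

open Finset Filter

open Classical

namespace Tc

theorem cheb : ∀ᶠ n : ℕ in atTop, 68 / 100 * (n : ℝ) ≤ n.primeCounting * Real.log n ∧
    n.primeCounting * Real.log n ≤ 14 / 10 * (n : ℝ) := by
  have a := tendsto_natCast_atTop_atTop.eventually
    (Chebyshev.eventually_primeCounting_le (show (0 : ℝ) < 1 / 100 by norm_num))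
  have b := tendsto_natCast_atTop_atTop.eventually
    (Real.isLittleO_log_id_atTop.bound (show (0 : ℝ) < 1 / 100 by norm_num))
  filter_upwards [a, b, eventually_ge_atTop 1000] with n h1 h2 h3
  have hn : (1000 : ℝ) ≤ n := by exact_mod_cast h3
  have hl : 0 < Real.log n := Real.log_pos (by linarith)
  have h4 := Chebyshev.pi_ge n
  rw [Nat.floor_natCast, le_div_iff₀ hl, show (4 : ℝ) = 2 ^ 2 by norm_num, Real.log_pow] at h1
  rw [div_le_iff₀ hl] at h4
  rw [Real.norm_of_nonneg hl.le, id, Real.norm_of_nonneg (by linarith)] at h2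
  have h5 : Real.log (n + 1) ≤ Real.log 2 + Real.log n := by
    rw [← Real.log_mul (by norm_num) (by linarith)]
    exact Real.log_le_log (by linarith) (by linarith)
  have := Real.log_two_gt_d9
  have := Real.log_two_lt_d9
  push_cast at h1
  constructor <;> nlinarith

theorem cnt (Y : ℕ) : (8 * Y).primeCounting.primeCounting ≤ Y.primeCounting.primeCounting +
    ((Ioc Y (8 * Y)).filter fun l => l.Prime ∧ (Nat.primeCounting l).Prime).card := by
  have h1 : ((Ioc Y.primeCounting (8 * Y).primeCounting).filter Nat.Prime).card ≤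
      ((Ioc Y (8 * Y)).filter fun l => l.Prime ∧ (Nat.primeCounting l).Prime).card := by
    refine card_le_card_of_surjOn Nat.primeCounting fun q hq => ?_
    obtain ⟨a, b⟩ := mem_filter.1 (mem_coe.1 hq)
    rw [mem_Ioc] at a
    obtain ⟨r, rfl⟩ : ∃ r, q = r + 1 := ⟨q - 1, by omega⟩
    have e : (Nat.nth Nat.Prime r).primeCounting = r + 1 :=
      Nat.count_nth_succ_of_infinite Nat.infinite_setOf_prime r
    refine ⟨_, mem_coe.2 (mem_filter.2 ⟨mem_Ioc.2 ⟨not_le.1 fun h => ?_, ?_⟩,
      Nat.prime_nth_prime r, e ▸ b⟩), e⟩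
    · have := Nat.monotone_primeCounting h
      omega
    · exact Nat.le_of_lt_succ (Nat.nth_lt_of_lt_count a.2)
  refine le_trans ?_ (Nat.add_le_add_left h1 _)
  generalize (8 * Y).primeCounting = A
  generalize Y.primeCounting = B
  simp only [Nat.primeCounting, Nat.primeCounting', Nat.count_eq_card_filter_range]
  refine (card_le_card fun x hx => ?_).trans (card_union_le _ _)
  simp only [mem_union, mem_filter, mem_range, mem_Ioc] at hx ⊢
  rcases le_or_gt x B with h | h
  · exact Or.inl ⟨by omega, hx.2⟩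
  · exact Or.inr ⟨⟨h, by omega⟩, hx.2⟩

theorem main : ∀ᶠ Y : ℕ in atTop, (Y : ℝ) ≤
    ((Ioc Y (8 * Y)).filter fun l => l.Prime ∧ (Nat.primeCounting l).Prime).card *
      Real.log Y ^ 2 := by
  obtain ⟨n0, h⟩ := eventually_atTop.1 cheb
  have tl : Tendsto (fun n : ℕ => Real.log n) atTop atTop :=
    Real.tendsto_log_atTop.comp tendsto_natCast_atTop_atTop
  have b := tl.eventually (Real.isLittleO_log_id_atTop.bound (show (0 : ℝ) < 1 / 20 by norm_num))
  filter_upwards [b, tl.eventually_ge_atTop 300, eventually_ge_atTop n0,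
    Nat.tendsto_primeCounting.eventually_ge_atTop (n0 + 1), eventually_gt_atTop 0]
    with Y h1 h2 h3 h4 h5
  have hY : (0 : ℝ) < Y := by exact_mod_cast h5
  have m := Nat.monotone_primeCounting (show Y ≤ 8 * Y by omega)
  have c : ((8 * Y).primeCounting.primeCounting : ℝ) ≤ _ := Nat.cast_le.2 (cnt Y)
  obtain ⟨a1, a2⟩ := h Y h3
  obtain ⟨b1, b2⟩ := h (8 * Y) (by omega)
  obtain ⟨-, c2⟩ := h Y.primeCounting (by omega)
  obtain ⟨d1, -⟩ := h (8 * Y).primeCounting (by omega)
  have hB : (0 : ℝ) < Y.primeCounting := by exact_mod_cast (by omega : 0 < Y.primeCounting)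
  have hA : (0 : ℝ) < (8 * Y).primeCounting := hB.trans_le (Nat.cast_le.2 m)
  rw [Nat.cast_add] at c
  rw [Nat.cast_mul, Nat.cast_ofNat] at b1 b2
  have p1 : (0 : ℝ) ≤ (8 * Y).primeCounting.primeCounting := Nat.cast_nonneg _
  have p2 : (0 : ℝ) ≤ Y.primeCounting.primeCounting := Nat.cast_nonneg _
  generalize ((8 * Y).primeCounting.primeCounting : ℝ) = P at *
  generalize (Y.primeCounting.primeCounting : ℝ) = Q at *
  generalize ((8 * Y).primeCounting : ℝ) = A at *
  generalize (Y.primeCounting : ℝ) = B at *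
  have l2 := Real.log_two_lt_d9
  have e8 : Real.log (8 * Y) = 3 * Real.log 2 + Real.log Y := by
    rw [Real.log_mul (by norm_num) hY.ne', show (8 : ℝ) = 2 ^ 3 by norm_num, Real.log_pow]
    norm_num
  have l0 := Real.log_pos (show (1 : ℝ) < 2 by norm_num)
  have f1 : Real.log A ≤ Real.log (8 * Y) := Real.log_le_log hA (by nlinarith)
  have f2 : Real.log Y ≤ Real.log 2 + Real.log B + Real.log (Real.log Y) := by
    rw [← Real.log_mul (by norm_num) hB.ne', ← Real.log_mul (by positivity) (by linarith)]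
    exact Real.log_le_log hY (by linarith)
  rw [id, Real.norm_of_nonneg (by linarith : 0 ≤ Real.log Y)] at h1
  have f3 := (le_abs_self _).trans h1
  set L := Real.log Y
  have g1 : 544 / 100 * (Y : ℝ) ≤ A * (101 / 100 * L) :=
    le_trans (by linarith) (mul_le_mul_of_nonneg_left
      (show Real.log (8 * Y) ≤ 101 / 100 * L by linarith) hA.le)
  have g2 : 68 / 100 * A ≤ P * (101 / 100 * L) :=
    d1.trans (mul_le_mul_of_nonneg_left (by linarith) p1)
  have g3 : Q * (9 / 10 * L) ≤ 14 / 10 * B :=
    (mul_le_mul_of_nonneg_left (by linarith) p2).trans c2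
  have g4 := mul_le_mul_of_nonneg_right g2 (by linarith : 0 ≤ L)
  have g5 := mul_le_mul_of_nonneg_right g3 (by linarith : 0 ≤ L)
  have g6 := mul_le_mul_of_nonneg_right c (sq_nonneg L)
  nlinarith

end Tc

theorem tc : TCStmt := by
  have t : Tendsto YY atTop atTop := tendsto_atTop_mono (fun H =>
    ((Nat.le_self_pow (by norm_num) H).trans Nat.lt_two_pow_self.le).trans
      (Nat.le_self_pow (by norm_num) (ww H))) tendsto_id
  refine ⟨1 / 10 ^ 8, by positivity, ?_⟩
  filter_upwards [t.eventually Tc.main, eventually_gt_atTop 0] with H h h0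
  have hH : (0 : ℝ) < H := by exact_mod_cast h0
  have e : Real.log (YY H) = 10000 * (H ^ 8 * Real.log 2) := by
    rw [YY, ww, Nat.cast_pow, Nat.cast_pow, Real.log_pow, Real.log_pow]; push_cast; rfl
  have a : Real.log (YY H) ^ 2 ≤ (10000 * (H ^ 8 * 1)) ^ 2 := by
    have := Real.log_two_lt_d9
    have := Real.log_two_gt_d9
    rw [e]
    gcongr
    linarith
  have b := mul_le_mul_of_nonneg_left a (Nat.cast_nonneg (TT H).card)
  rw [div_le_iff₀ (by positivity)]
  change _ ≤ ((TT H).card : ℝ) * _ at h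
  linarith

end Pool.Agent.MP_08f4e9_nt.RD
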