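import Pool.Agent.MP_08f4e9_nt.Spec

/-! Project RD: every window carries a fixed reciprocal mass. -/

set_option autoImplicit false

noncomputable section

namespace Pool.Agent.MP_08f4e9_nt.RD

open Finset Filter Pool.Agent.MP_35c637_nt.OS
open Pool.Agent.MP_a43263_nt.R2 hiding sg

open Classical

theorem win (tc : TCStmt) (al : ALStmt) (as : ASStmt) : WINStmt := by
  obtain ⟨c, hc, h1⟩ := tc
  obtain ⟨d, hd, h2⟩ := al (c / 2) (half_pos hc)
  refine ⟨min d 1, lt_min hd one_pos, ?_⟩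
  filter_upwards [h1, h2, as (c / 2) (half_pos hc)] with H a1 a2 a3
  have e := card_filter_add_card_filter_not (s := TT H) fun l => ∃ h ∈ Icc 1 H, (l + h).Prime
  have e' : (((TT H).filter fun l => ∃ h ∈ Icc 1 H, (l + h).Prime).card : ℝ) +
      ((TT H).filter fun l => ¬∃ h ∈ Icc 1 H, (l + h).Prime).card = (TT H).card := by
    exact_mod_cast e
  have e2 : c * YY H / (H : ℝ) ^ 16 = c / 2 * YY H / (H : ℝ) ^ 16 + c / 2 * YY H / (H : ℝ) ^ 16 := by
    ring
  by_cases h : c / 2 * YY H / (H : ℝ) ^ 16 ≤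
      ((TT H).filter fun l => ∃ h ∈ Icc 1 H, (l + h).Prime).card
  · exact (min_le_right _ _).trans (a3 _ (filter_subset _ _) (fun l hl => (mem_filter.1 hl).2) h)
  · refine (min_le_left _ _).trans (a2 ((TT H).filter fun l => ¬∃ h ∈ Icc 1 H, (l + h).Prime)
      (filter_subset _ _) (fun l hl j hj hp => (mem_filter.1 hl).2 ⟨j, hj, hp⟩) ?_)
    linarith [not_le.1 h]

end Pool.Agent.MP_08f4e9_nt.RD
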