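import Pool.Agent.MP_08f4e9_nt.Gs3
import Pool.Agent.MP_08f4e9_nt.Tc
import Pool.Agent.MP_08f4e9_nt.M1
import Pool.Agent.MP_08f4e9_nt.M2
import Pool.Agent.MP_08f4e9_nt.Mom
import Pool.Agent.MP_08f4e9_nt.Sg1
import Pool.Agent.MP_08f4e9_nt.Sg2
import Pool.Agent.MP_08f4e9_nt.Rl
import Pool.Agent.MP_08f4e9_nt.Bs
import Pool.Agent.MP_08f4e9_nt.Rs
import Pool.Agent.MP_08f4e9_nt.Al
import Pool.Agent.MP_08f4e9_nt.As
import Pool.Agent.MP_08f4e9_nt.Fin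
import Pool.Agent.MP_08f4e9_nt.Win

/-! Project RD: assembly. -/

set_option autoImplicit false

namespace Pool.Agent.MP_08f4e9_nt.RD

theorem main : FINStmt :=
  fin (win tc (al (mom (m2 m1)) sg1 rl) (asm (bs gs3 sg2) (rs gs3 sg2)))

end Pool.Agent.MP_08f4e9_nt.RD
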