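import Pool.Agent.MP_08f4e9_nt.Spec

/-! From the windows to the reciprocal sum. -/

set_option autoImplicit false

noncomputable section

namespace Pool.Agent.MP_08f4e9_nt.RD

open Finset Filter Pool.Agent.MP_35c637_nt.OS
open Pool.Agent.MP_a43263_nt.R2 hiding sg

open Classical

namespace FinA

/-- the reciprocal sum up to `M` -/
def SS (M : ℕ) : ℝ := ∑ n ∈ (Icc 1 M).filter Good, (1 : ℝ) / n

theorem mono {M M' : ℕ} (h : M ≤ M') : SS M ≤ SS M' :=
  sum_le_sum_of_subset_of_nonneg (filter_subset_filter _ (Icc_subset_Icc_right h))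
    fun _ _ _ => by positivity

theorem step {M a b : ℕ} (h1 : M ≤ a) (h2 : a ≤ b) :
    SS M + ∑ n ∈ (Ioc a b).filter Good, (1 : ℝ) / n ≤ SS b := by
  unfold SS
  rw [← sum_union]
  · refine sum_le_sum_of_subset_of_nonneg (fun n hn => ?_) fun _ _ _ => by positivity
    simp only [mem_union, mem_filter, mem_Icc, mem_Ioc] at hn ⊢
    rcases hn with hn | hn
    · exact ⟨by omega, hn.2⟩
    · exact ⟨by omega, hn.2⟩
  · rw [disjoint_left]
    intro n h3 h4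
    simp only [mem_filter, mem_Icc, mem_Ioc] at h3 h4
    omega

theorem gap (k : ℕ) : ww (2 ^ k) ^ 10001 ≤ ww (2 ^ (k + 1)) ^ 9000 := by
  unfold ww
  have h : (2 ^ k) ^ 8 * 10001 ≤ (2 ^ (k + 1)) ^ 8 * 9000 := by
    rw [pow_succ 2 k, mul_pow]
    generalize (2 ^ k) ^ 8 = A
    omega
  calc (2 ^ (2 ^ k) ^ 8) ^ 10001 = 2 ^ ((2 ^ k) ^ 8 * 10001) := (pow_mul _ _ _).symm
    _ ≤ 2 ^ ((2 ^ (k + 1)) ^ 8 * 9000) := Nat.pow_le_pow_right (by norm_num) h
    _ = (2 ^ (2 ^ (k + 1)) ^ 8) ^ 9000 := pow_mul _ _ _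

theorem top (k K : ℕ) (h : 8 * k + 14 ≤ K) : ww (2 ^ k) ^ 10001 ≤ 2 ^ 2 ^ K := by
  unfold ww
  rw [← pow_mul]
  refine Nat.pow_le_pow_right (by norm_num) (le_trans ?_ (Nat.pow_le_pow_right (by norm_num) h))
  rw [← pow_mul, mul_comm k 8, pow_add]
  exact Nat.mul_le_mul_left _ (by norm_num)

theorem iter {d : ℝ} {H0 : ℕ} (h : ∀ H, H0 ≤ H → d ≤ WW H) (m : ℕ) :
    d * m ≤ SS (ww (2 ^ (H0 + m)) ^ 10001) := by
  induction m with
  | zero =>
    rw [Nat.cast_zero, mul_zero]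
    exact sum_nonneg fun _ _ => by positivity
  | succ m ih =>
    have h0 : H0 ≤ 2 ^ (H0 + m + 1) :=
      ((Nat.le_add_right H0 m).trans (Nat.le_succ _)).trans Nat.lt_two_pow_self.le
    have h1 := h _ h0
    have h2 := step (gap (H0 + m)) (Nat.pow_le_pow_right
      (n := ww (2 ^ (H0 + m + 1))) (by unfold ww; positivity) (by norm_num : 9000 ≤ 10001))
    unfold WW at h1
    rw [← Nat.add_assoc]
    push_cast
    linarith

theorem loglog {N : ℕ} (hN : 2 ≤ N) :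
    Real.log (Real.log N) ≤ (Nat.log 2 (Nat.log 2 N) : ℝ) + 1 := by
  obtain ⟨K, hK⟩ : ∃ K, K = Nat.log 2 (Nat.log 2 N) := ⟨_, rfl⟩
  have h1 : N < 2 ^ (Nat.log 2 N + 1) := Nat.lt_pow_succ_log_self (by norm_num) N
  have h2 : Nat.log 2 N < 2 ^ (K + 1) := hK ▸ Nat.lt_pow_succ_log_self (by norm_num) _
  have h3 : N ≤ 2 ^ 2 ^ (K + 1) := h1.le.trans (Nat.pow_le_pow_right (by norm_num) h2)
  have l2 : Real.log 2 ≤ 1 := by linarith [Real.log_two_lt_d9]
  have h4 : (1 : ℝ) < N := by exact_mod_cast hN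
  have h5 : Real.log N ≤ 2 ^ (K + 1) := by
    have a1 : (N : ℝ) ≤ 2 ^ 2 ^ (K + 1) := by exact_mod_cast h3
    have a2 := Real.log_le_log (by linarith) a1
    rw [Real.log_pow] at a2
    push_cast at a2
    exact a2.trans (mul_le_of_le_one_right (by positivity) l2)
  have h6 := Real.log_le_log (Real.log_pos h4) h5
  rw [Real.log_pow] at h6
  push_cast at h6
  rw [← hK]
  exact h6.trans (mul_le_of_le_one_right (by positivity) l2)

end FinA

theorem fin : WINStmt → FINStmt := by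
  rintro ⟨d, hd, h⟩
  obtain ⟨H0, h⟩ := eventually_atTop.1 h
  refine ⟨d / 16, by positivity, 2 ^ 2 ^ (16 * H0 + 100), fun N hN => ?_⟩
  have hN2 : 2 ≤ N := le_trans (Nat.le_self_pow (by positivity) 2) hN
  have h1 : 2 ^ (16 * H0 + 100) ≤ Nat.log 2 N := Nat.le_log_of_pow_le (by norm_num) hN
  have h2 : 16 * H0 + 100 ≤ Nat.log 2 (Nat.log 2 N) := Nat.le_log_of_pow_le (by norm_num) h1
  have h3 := FinA.loglog hN2
  have h4 : 2 ^ Nat.log 2 (Nat.log 2 N) ≤ Nat.log 2 N :=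
    Nat.pow_log_le_self 2 (ne_of_gt (lt_of_lt_of_le (by positivity) h1))
  have h5 : 2 ^ 2 ^ Nat.log 2 (Nat.log 2 N) ≤ N :=
    (Nat.pow_le_pow_right (by norm_num) h4).trans (Nat.pow_log_le_self 2 (by omega))
  generalize Nat.log 2 (Nat.log 2 N) = K at h2 h3 h5
  obtain ⟨m, m1, m2⟩ : ∃ m, 8 * (H0 + m) + 14 ≤ K ∧ K + 1 ≤ 16 * m :=
    ⟨(K - 14) / 8 - H0, by omega, by omega⟩
  have h6 := (FinA.iter h m).trans (FinA.mono ((FinA.top _ _ m1).trans h5))
  have h7 : (K : ℝ) + 1 ≤ 16 * m := by exact_mod_cast m2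
  have h8 := mul_le_mul_of_nonneg_left (h3.trans h7) hd.le
  unfold FinA.SS at h6
  linarith

end Pool.Agent.MP_08f4e9_nt.RD
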