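import Pool.Agent.MP_08f4e9_nt.Spec

/-! Row GS3: the upper bound sieve for three linear forms. -/

set_option autoImplicit false

noncomputable section

namespace Pool.Agent.MP_08f4e9_nt.RD

open Finset Filter Pool.Agent.MP_35c637_nt.OS
open Pool.Agent.MP_a43263_nt.R2 hiding sg

open Classical

namespace Gs3

theorem dis {p : ℕ} {u v u' v' : ℤ} (h : ¬(p : ℤ) ∣ u * v' - u' * v) :
    Disjoint ((range p).filter fun r : ℕ => (p : ℤ) ∣ u * r + v)
      ((range p).filter fun r : ℕ => (p : ℤ) ∣ u' * r + v') :=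
  disjoint_left.2 fun r b1 b2 => h (by
    rw [show u * v' - u' * v = u * (u' * r + v') - u' * (u * r + v) by ring]
    exact dvd_sub (Dvd.dvd.mul_left (mem_filter.1 b2).2 _)
      (Dvd.dvd.mul_left (mem_filter.1 b1).2 _))

end Gs3

theorem gs3 : GS3Stmt := by
  obtain ⟨-, ⟨C, hC⟩, -, -, -⟩ := mer
  refine ⟨max 4 ⌈Real.exp (6 * C)⌉₊,
    fun y hy u1 v1 u2 v2 u3 v3 P1 P2 P3 s N T h1 h2 h3 hu1 hu2 hu3 hT => ?_⟩
  have y4 : 4 ≤ y := (le_max_left _ _).trans hy
  have hz0 : (0 : ℝ) < y := by exact_mod_cast (by omega : 0 < y)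
  have lz : 0 < Real.log y := Real.log_pos (by exact_mod_cast (by omega : 1 < y))
  have hz1 : 6 * C ≤ Real.log y :=
    (Real.le_log_iff_exp_le hz0).2 (Nat.ceil_le.1 ((le_max_right _ _).trans hy))
  set ω : ℕ → ℕ := fun p => if p ∈ P3 then 3 else if p ∈ P2 then 2 else 1 with hω
  set w : ℕ → ℝ := fun p => (ω p : ℝ) / (p - ω p) with hw
  have hp : ∀ p ∈ P1, p.Prime ∧ 6 < p := fun p hp =>
    ⟨(Mer.mem_pri.1 (h1 hp)).2, (Mer.mem_pri.1 (h1 hp)).1.1⟩
  have hw1 : ∀ p ∈ P1, 0 ≤ w p ∧ w p ≤ 6 / p ∧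
      (1 + 1 / (p : ℝ)) * (if p ∈ P2 then 1 + 1 / (p : ℝ) else 1) *
        (if p ∈ P3 then 1 + 1 / (p : ℝ) else 1) ≤ 1 + w p := by
    intro p hp'
    have p4 : (7 : ℝ) ≤ p := by exact_mod_cast (hp p hp').2
    simp only [hw, hω]
    by_cases e' : p ∈ P3
    · have p6 : (0 : ℝ) < p - 3 := by linarith
      simp only [e', h3 e', if_true]
      push_cast
      refine ⟨by positivity, by rw [div_le_div_iff₀ p6 (by linarith)]; linarith, ?_⟩
      rw [← sub_nonneg, show 1 + 3 / ((p : ℝ) - 3) - (1 + 1 / p) * (1 + 1 / p) * (1 + 1 / p) =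
        (6 * p ^ 2 + 8 * p + 3) / (p ^ 3 * (p - 3)) by field_simp; ring]
      positivity
    simp only [e', if_false, mul_one]
    split_ifs with e
    · have p6 : (0 : ℝ) < p - 2 := by linarith
      push_cast
      refine ⟨by positivity, by rw [div_le_div_iff₀ p6 (by linarith)]; linarith, ?_⟩
      rw [← sub_nonneg, show 1 + 2 / ((p : ℝ) - 2) - (1 + 1 / p) * (1 + 1 / p) =
        (3 * p + 2) / (p ^ 2 * (p - 2)) by field_simp; ring]
      positivity
    · have p6 : (0 : ℝ) < p - 1 := by linarith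
      push_cast
      refine ⟨by positivity, by rw [div_le_div_iff₀ p6 (by linarith)]; linarith, ?_⟩
      rw [mul_one]
      gcongr
      linarith
  have k1 := sv crt P1 (fun p n => (p : ℤ) ∣ u1 * n + v1 ∨ (p ∈ P2 ∧ (p : ℤ) ∣ u2 * n + v2) ∨
      p ∈ P3 ∧ (p : ℤ) ∣ u3 * n + v3) ω
    (P1.powerset.filter fun A => ∏ p ∈ A, p ≤ y ^ 14) s N (y ^ 14) (fun p h => (hp p h).1)
    (fun p _ n => by
      rw [show u1 * (n + p) + v1 = (u1 * n + v1) + p * u1 by ring,
        show u2 * (n + p) + v2 = (u2 * n + v2) + p * u2 by ring,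
        show u3 * (n + p) + v3 = (u3 * n + v3) + p * u3 by ring,
        dvd_add_left (dvd_mul_right _ _), dvd_add_left (dvd_mul_right _ _),
        dvd_add_left (dvd_mul_right _ _)])
    (fun p hp' => by
      obtain ⟨q1, q2⟩ := hp p hp'
      have e1 := card_lin q1 v1 (hu1 p hp')
      simp only [hω]
      split_ifs with e' e
      · refine ⟨?_, by omega⟩
        have e := h3 e'
        have e2 := card_lin q1 v2 (hu2 p e).1
        have e3 := card_lin q1 v3 (hu3 p e').1
        have e4 := card_union_of_disjoint (disjoint_union_right.2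
          ⟨Gs3.dis (hu2 p e).2, Gs3.dis (hu3 p e').2.1⟩)
        rw [card_union_of_disjoint (Gs3.dis (hu3 p e').2.2), e1, e2, e3] at e4
        rw [← (show _ = 3 from e4)]
        congr 1
        ext r
        simp only [mem_filter, mem_union, e, e', true_and]
        tauto
      · refine ⟨?_, by omega⟩
        have e2 := card_lin q1 v2 (hu2 p e).1
        have e4 := card_union_of_disjoint (Gs3.dis (hu2 p e).2)
        rw [e1, e2] at e4
        rw [← (show _ = 2 from e4)]
        congr 1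
        ext r
        simp only [mem_filter, mem_union, e, e', true_and, false_and, or_false]
        tauto
      · refine ⟨?_, by omega⟩
        rw [← e1]
        congr 1
        ext r
        simp only [mem_filter, e, e', false_and, or_false])
    (mem_filter.2 ⟨empty_mem_powerset _, by simpa using Nat.one_le_pow 14 y (by omega)⟩)
    fun A hA => ⟨mem_powerset.1 (mem_filter.1 hA).1, (mem_filter.1 hA).2⟩
  have k2 := (pm P1 w fun p hp => (hw1 p hp).1).1 (fun p => Real.log p) (14 * Real.log y)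
    fun p _ => Real.log_natCast_nonneg p
  have k3 : ∑ p ∈ P1, Real.log p * w p ≤ 7 * Real.log y := by
    have a1 := hC 6 y (by omega)
    have a2 : ∑ p ∈ P1, Real.log p / p ≤ ∑ p ∈ pri 6 y, Real.log p / p :=
      sum_le_sum_of_subset_of_nonneg h1 fun p _ _ =>
        div_nonneg (Real.log_natCast_nonneg p) (Nat.cast_nonneg p)
    refine (sum_le_sum fun p hp => mul_le_mul_of_nonneg_left (hw1 p hp).2.1
      (Real.log_natCast_nonneg p)).trans ?_
    rw [sum_congr rfl (g := fun p : ℕ => 6 * (Real.log p / p)) fun p _ => by ring, ← mul_sum]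
    linarith
  have k4 : E P1 * E P2 * E P3 ≤ ∏ p ∈ P1, (1 + w p) := by
    refine le_trans (le_of_eq ?_)
      (prod_le_prod (fun p _ => by positivity) fun p hp => (hw1 p hp).2.2)
    rw [prod_mul_distrib, prod_mul_distrib, ← prod_filter, ← prod_filter, filter_mem_eq_inter,
      filter_mem_eq_inter, inter_eq_right.2 h2, inter_eq_right.2 (h3.trans h2), E, E, E]
  have k0 : 0 < E P1 * E P2 * E P3 := mul_pos (mul_pos (E_pos _) (E_pos _)) (E_pos _)
  have k5 : (∏ p ∈ P1, (1 + w p)) / 2 ≤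
      ∑ A ∈ P1.powerset.filter (fun A => ∏ p ∈ A, p ≤ y ^ 14), ∏ p ∈ A, w p := by
    have e1 := sum_filter_add_sum_filter_not P1.powerset (fun A => ∏ p ∈ A, p ≤ y ^ 14)
      fun A => ∏ p ∈ A, w p
    rw [← prod_one_add] at e1
    have e2 : P1.powerset.filter (fun A => ¬∏ p ∈ A, p ≤ y ^ 14) =
        P1.powerset.filter fun A => 14 * Real.log y < ∑ p ∈ A, Real.log (p : ℕ) := by
      refine filter_congr fun A hA => ?_
      have e3 : ∀ p ∈ A, (0 : ℝ) < p := fun p hp' => by
        exact_mod_cast (hp p (mem_powerset.1 hA hp')).1.pos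
      rw [← Real.log_prod fun p hp' => (e3 p hp').ne', not_le,
        show (14 : ℝ) * Real.log y = Real.log (y ^ 14) by simp,
        Real.log_lt_log_iff (by positivity) (prod_pos e3), ← Nat.cast_prod, ← Nat.cast_pow,
        Nat.cast_lt]
    rw [e2] at e1
    have e3 := k2.trans (mul_le_mul_of_nonneg_right k3 (k0.le.trans k4))
    nlinarith
  refine le_trans ?_ (k1.trans (add_le_add ?_ (le_of_eq (by push_cast; ring))))
  · rw [Nat.cast_le]
    refine card_le_card fun n hn => ?_
    obtain ⟨a1, a2, a3, a4, a5⟩ := hT n hn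
    simp only [mem_filter, mem_Ico]
    exact ⟨⟨a1, a2⟩, fun p hp' h => h.elim (a3 p hp') fun h =>
      h.elim (fun h => a4 p h.1 h.2) fun h => a5 p h.1 h.2⟩
  · refine (div_le_div_of_nonneg_left (Nat.cast_nonneg _) (half_pos k0)
      (le_trans (by linarith) k5)).trans (le_of_eq ?_)
    field_simp

end Pool.Agent.MP_08f4e9_nt.RD
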