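import Pool.Agent.MP_35c637_nt.os.Sv
import Mathlib.NumberTheory.Chebyshev
import Mathlib.NumberTheory.PrimeCounting

/-! Project RD: the reciprocals of the `n` with a prime `p ≤ n` such that the number of primes up to
`p n` is prime have a divergent sum. Statements of the rows. -/

set_option autoImplicit false

noncomputable section

namespace Pool.Agent.MP_08f4e9_nt.RD

open Finset Filter Pool.Agent.MP_35c637_nt.OS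
open Pool.Agent.MP_a43263_nt.R2 hiding sg

open Classical

def Good (n : ℕ) : Prop := ∃ p : ℕ, p.Prime ∧ p ≤ n ∧ (Nat.primeCounting (p * n)).Prime

def ww (H : ℕ) : ℕ := 2 ^ H ^ 8

def uu (H : ℕ) : ℕ := 2 ^ H ^ 6

def YY (H : ℕ) : ℕ := ww H ^ 10000

/-- primes of prime index in the window -/
def TT (H : ℕ) : Finset ℕ :=
  (Ioc (YY H) (8 * YY H)).filter fun l => l.Prime ∧ (Nat.primeCounting l).Prime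

/-- the reciprocal sum over the good `n` of the window -/
def WW (H : ℕ) : ℝ := ∑ n ∈ (Ioc (ww H ^ 9000) (ww H ^ 10001)).filter Good, (1 : ℝ) / n

/-- the sieve for three forms -/
def GS3Stmt : Prop := ∃ y0 : ℕ, ∀ y : ℕ, y0 ≤ y → ∀ (u1 v1 u2 v2 u3 v3 : ℤ) (P1 P2 P3 : Finset ℕ)
  (s : ℤ) (N : ℕ) (T : Finset ℤ), P1 ⊆ pri 6 y → P2 ⊆ P1 → P3 ⊆ P2 →
  (∀ p ∈ P1, ¬(p : ℤ) ∣ u1) → (∀ p ∈ P2, ¬(p : ℤ) ∣ u2 ∧ ¬(p : ℤ) ∣ u1 * v2 - u2 * v1) →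
  (∀ p ∈ P3, ¬(p : ℤ) ∣ u3 ∧ ¬(p : ℤ) ∣ u1 * v3 - u3 * v1 ∧ ¬(p : ℤ) ∣ u2 * v3 - u3 * v2) →
  (∀ n ∈ T, s ≤ n ∧ n < s + N ∧ (∀ p ∈ P1, ¬(p : ℤ) ∣ u1 * n + v1) ∧
    (∀ p ∈ P2, ¬(p : ℤ) ∣ u2 * n + v2) ∧ ∀ p ∈ P3, ¬(p : ℤ) ∣ u3 * n + v3) →
  (T.card : ℝ) ≤ 2 * N / (E P1 * E P2 * E P3) + 2 * (y : ℝ) ^ 84

def TCStmt : Prop := ∃ c : ℝ, 0 < c ∧ ∀ᶠ H : ℕ in atTop,
  c * YY H / (H : ℝ) ^ 16 ≤ (TT H).card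

/-- a product of second moments -/
def M1Stmt : Prop := ∀ (k y N : ℕ) (R : ℕ → Finset ℕ) (g : ℕ → ℤ → ℝ) (a : ℤ), 1 ≤ y →
  (∀ i < k, ∀ p ∈ R i, p.Prime ∧ p ≤ y) →
  (∀ i < k, ∀ j < k, i ≠ j → Disjoint (R i) (R j)) →
  (∀ (p : ℕ) (n : ℤ), g p (n + p) = g p n) → (∀ (p : ℕ) (n : ℤ), |g p n| ≤ 1) →
  (∀ i < k, ∀ p ∈ R i, ∑ r ∈ range p, g p r = 0) →
  ∑ x ∈ Ico a (a + N), ∏ i ∈ range k, (∑ p ∈ R i, g p x) ^ 2 ≤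
    N * ∏ i ∈ range k, (∑ p ∈ R i, (∑ r ∈ range p, g p r ^ 2) / p) + 2 * (y : ℝ) ^ (4 * k)

/-- few `x` see few primes of every block in the `H` shifts -/
def M2Stmt : Prop := ∀ ε : ℝ, 0 < ε → ∀ᶠ H : ℕ in atTop,
  (((Ioc (YY H) (8 * YY H)).filter fun x => ∀ i < 17,
    400 * ((pri (ww H ^ (90 + i)) (ww H ^ (91 + i))).filter fun p =>
      ∃ j ∈ Icc 1 H, p ∣ x + j).card ≤ H).card : ℝ) ≤ ε * YY H / (H : ℝ) ^ 16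

def MOMStmt : Prop := ∀ ε : ℝ, 0 < ε → ∀ᶠ H : ℕ in atTop,
  (((Ioc (YY H) (8 * YY H)).filter fun x =>
    50000 * ((Icc 1 H).filter fun j => ∃ p ∈ pri (ww H ^ 90) (ww H ^ 107), p ∣ x + j).card
      < H).card : ℝ) ≤ ε * YY H / (H : ℝ) ^ 16

def SG1Stmt : Prop := ∃ V : ℝ, 1 ≤ V ∧ ∀ᶠ H : ℕ in atTop, ∀ x : ℕ, x ≤ 8 * YY H →
  200000 * ((Icc 1 H).filter fun j => V < sg (x + j)).card ≤ H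

def SG2Stmt : Prop := ∃ C : ℝ, 0 < C ∧ ∀ᶠ H : ℕ in atTop, ∀ m : ℕ, m ≠ 0 → m ≤ ww H ^ 10001 →
  sg m ≤ C * Real.log H

def RLStmt : Prop := ∃ C : ℝ, 0 < C ∧ ∀ᶠ H : ℕ in atTop, ∀ n j : ℕ, 1 ≤ n → 1 ≤ j → j ≤ H →
  (((pri (ww H ^ 90) (ww H ^ 107)).filter fun p =>
    ∃ l : ℕ, l.Prime ∧ YY H < l ∧ l ≤ 8 * YY H ∧ l + j = p * n).card : ℝ) ≤
      C * sg n * sg j * YY H / (n * (H : ℝ) ^ 16)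

def BSStmt : Prop := ∀ ε : ℝ, 0 < ε → ∀ᶠ H : ℕ in atTop,
  (((Ioc (YY H) (8 * YY H)).filter fun l => l.Prime ∧ (∃ h ∈ Icc 1 H, (l + h).Prime) ∧
    ∀ r ∈ pri (uu H ^ 100) (ww H), ¬r ∣ l + 1).card : ℝ) ≤ ε * YY H / (H : ℝ) ^ 16

def RSStmt : Prop := ∃ C : ℝ, 0 < C ∧ ∀ᶠ H : ℕ in atTop, ∀ n h : ℕ, 1 ≤ n → n ≤ ww H ^ 10001 →
  2 ≤ h → h ≤ H →
  (((pri (uu H ^ 100) (ww H)).filter fun p =>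
    ∃ l : ℕ, l.Prime ∧ YY H < l ∧ l ≤ 8 * YY H ∧ l + 1 = p * n ∧ (l + h).Prime).card : ℝ) ≤
      C * Real.log H ^ 4 * YY H / (n * (H : ℝ) ^ 18)

/-- long gaps -/
def ALStmt : Prop := ∀ c : ℝ, 0 < c → ∃ d : ℝ, 0 < d ∧ ∀ᶠ H : ℕ in atTop, ∀ T : Finset ℕ,
  T ⊆ TT H → (∀ l ∈ T, ∀ j ∈ Icc 1 H, ¬(l + j).Prime) → c * YY H / (H : ℝ) ^ 16 ≤ T.card →
  d ≤ WW H

/-- short gaps -/
def ASStmt : Prop := ∀ c : ℝ, 0 < c → ∀ᶠ H : ℕ in atTop, ∀ T : Finset ℕ,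
  T ⊆ TT H → (∀ l ∈ T, ∃ h ∈ Icc 1 H, (l + h).Prime) → c * YY H / (H : ℝ) ^ 16 ≤ T.card →
  1 ≤ WW H

def WINStmt : Prop := ∃ d : ℝ, 0 < d ∧ ∀ᶠ H : ℕ in atTop, d ≤ WW H

def FINStmt : Prop := ∃ c : ℝ, 0 < c ∧ ∃ N₀ : ℕ, ∀ N : ℕ, N₀ ≤ N →
  c * Real.log (Real.log N) ≤ ∑ n ∈ (Icc 1 N).filter Good, (1 : ℝ) / n

end Pool.Agent.MP_08f4e9_nt.RD
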